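import Pool.Agent.Y967.EU.Stm

/-!
# EU-ANA: the series is entire, real and small (by helper469)
-/

set_option autoImplicit false

open Finset

namespace Pool.Agent.Y967.EU.Ana

theorem r_pos (k : ℕ) : 0 < r k := by unfold r; positivity

theorem r_le (k : ℕ) : r k ≤ 1 := by
  unfold r
  rw [div_le_one (by positivity)]
  have : (0 : ℝ) < 4 ^ k := by positivity
  linarith

/-- The sum in the term of the series. -/
noncomputable def inn (b : ℕ → ℕ → Bool) (t : ℕ) (z : ℂ) : ℂ :=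
  ∑ n ∈ range (t + 1), if b n t = true then ∏ j ∈ (range (t + 1)).erase n, (z - (r j : ℂ)) else 0

theorem trm_eq (b : ℕ → ℕ → Bool) (K t : ℕ) (z : ℂ) :
    trm b K t z = (1 / 2) ^ (K * 4 ^ (t + 1)) * inn b t z := rfl

theorem norm_inn {b : ℕ → ℕ → Bool} {t : ℕ} {z : ℂ} {C : ℝ} (hC : 1 ≤ C)
    (hz : ∀ j, ‖z - (r j : ℂ)‖ ≤ C) : ‖inn b t z‖ ≤ (t + 1) * C ^ t := by
  have h1 : ∀ n ∈ range (t + 1),
      ‖if b n t = true then ∏ j ∈ (range (t + 1)).erase n, (z - (r j : ℂ)) else 0‖ ≤ C ^ t := by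
    intro n hn
    split_ifs
    · rw [norm_prod]
      calc ∏ j ∈ (range (t + 1)).erase n, ‖z - (r j : ℂ)‖
          ≤ ∏ _j ∈ (range (t + 1)).erase n, C :=
            prod_le_prod (fun _ _ => norm_nonneg _) fun j _ => hz j
        _ = C ^ t := by rw [prod_const, card_erase_of_mem hn, card_range, Nat.add_sub_cancel]
    · rw [norm_zero]
      positivity
  calc ‖inn b t z‖ ≤ ∑ n ∈ range (t + 1),
        ‖if b n t = true then ∏ j ∈ (range (t + 1)).erase n, (z - (r j : ℂ)) else 0‖ :=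
          norm_sum_le _ _
    _ ≤ ∑ _n ∈ range (t + 1), C ^ t := sum_le_sum h1
    _ = (t + 1) * C ^ t := by rw [sum_const, card_range, nsmul_eq_mul]; push_cast; ring

theorem norm_trm {b : ℕ → ℕ → Bool} {K t : ℕ} {z : ℂ} {C : ℝ} (hC : 1 ≤ C)
    (hz : ∀ j, ‖z - (r j : ℂ)‖ ≤ C) :
    ‖trm b K t z‖ ≤ (1 / 2) ^ (K * 4 ^ (t + 1)) * ((t + 1) * C ^ t) := by
  rw [trm_eq, norm_mul, norm_pow]
  have h2 : ‖(1 / 2 : ℂ)‖ = 1 / 2 := by norm_num
  rw [h2]
  exact mul_le_mul_of_nonneg_left (norm_inn hC hz) (by positivity)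

theorem norm_sub_r {z : ℂ} {R : ℝ} (hz : ‖z‖ ≤ R) (j : ℕ) : ‖z - (r j : ℂ)‖ ≤ R + 1 := by
  refine (norm_sub_le _ _).trans (add_le_add hz ?_)
  rw [Complex.norm_real, Real.norm_eq_abs, abs_of_pos (r_pos j)]
  exact r_le j

/-- The majorant. -/
noncomputable def maj (R : ℝ) (t : ℕ) : ℝ := (1 / 2) ^ (4 ^ (t + 1)) * ((t + 1) * (R + 1) ^ t)

theorem maj_nonneg {R : ℝ} (hR : 0 ≤ R) (t : ℕ) : 0 ≤ maj R t := by unfold maj; positivity

theorem sq_le (t : ℕ) : t * t ≤ 4 ^ (t + 1) := by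
  have h1 : t < 2 ^ t := Nat.lt_two_pow_self
  calc t * t ≤ 2 ^ t * 2 ^ t := Nat.mul_le_mul h1.le h1.le
    _ = 4 ^ t := by rw [← mul_pow]; norm_num
    _ ≤ 4 ^ (t + 1) := Nat.pow_le_pow_right (by norm_num) (Nat.le_succ t)

theorem summable_maj {R : ℝ} (hR : 0 ≤ R) : Summable (maj R) := by
  obtain ⟨m, hm⟩ := pow_unbounded_of_one_lt (2 * (R + 1)) (one_lt_two : (1 : ℝ) < 2)
  have h0 : Summable fun t : ℕ => ((t : ℝ) + 1) * (1 / 2 : ℝ) ^ t := by
    have h1 : Summable fun t : ℕ => (t : ℝ) * (1 / 2 : ℝ) ^ t := by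
      have := summable_pow_mul_geometric_of_norm_lt_one 1 (r := (1 / 2 : ℝ)) (by norm_num)
      simpa using this
    have h2 : Summable fun t : ℕ => (1 / 2 : ℝ) ^ t := summable_geometric_two
    refine (h1.add h2).congr fun t => ?_
    ring
  refine Summable.of_nonneg_of_le (maj_nonneg hR) (fun t => ?_) (h0.mul_left ((2 : ℝ) ^ (m * m)))
  have h1 : (R + 1) ^ t ≤ (2 : ℝ) ^ (m * t) * (1 / 2) ^ t := by
    rw [pow_mul, ← mul_pow]
    exact pow_le_pow_left₀ (by positivity) (by linarith) t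
  have h2 : m * t ≤ m * m + 4 ^ (t + 1) := by
    have := sq_le t
    nlinarith [sq_nonneg ((m : ℤ) - t), Nat.le_total m t, Nat.mul_le_mul_left m (Nat.le_refl t),
      (by rcases Nat.le_total m t with h | h
          · exact (Nat.mul_le_mul_right t h).trans (Nat.le_add_left _ (m * m))
          · exact (Nat.mul_le_mul_left m h).trans (Nat.le_add_right _ _) : m * t ≤ m * m + t * t)]
  have h3 : (2 : ℝ) ^ (m * t) ≤ 2 ^ (m * m) * 2 ^ (4 ^ (t + 1)) := by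
    rw [← pow_add]
    exact pow_le_pow_right₀ (by norm_num) h2
  have h4 : (1 / 2 : ℝ) ^ (4 ^ (t + 1)) * 2 ^ (4 ^ (t + 1)) = 1 := by
    rw [← mul_pow]; norm_num
  have h5 : (1 / 2 : ℝ) ^ (4 ^ (t + 1)) * (R + 1) ^ t ≤ 2 ^ (m * m) * (1 / 2) ^ t := by
    calc (1 / 2 : ℝ) ^ (4 ^ (t + 1)) * (R + 1) ^ t
        ≤ (1 / 2 : ℝ) ^ (4 ^ (t + 1)) * ((2 ^ (m * m) * 2 ^ (4 ^ (t + 1))) * (1 / 2) ^ t) := by
          refine mul_le_mul_of_nonneg_left (h1.trans ?_) (by positivity)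
          exact mul_le_mul_of_nonneg_right h3 (by positivity)
      _ = 2 ^ (m * m) * ((1 / 2 : ℝ) ^ (4 ^ (t + 1)) * 2 ^ (4 ^ (t + 1))) * (1 / 2) ^ t := by ring
      _ = 2 ^ (m * m) * (1 / 2) ^ t := by rw [h4, mul_one]
  calc maj R t = ((t : ℝ) + 1) * ((1 / 2 : ℝ) ^ (4 ^ (t + 1)) * (R + 1) ^ t) := by
        unfold maj; ring
    _ ≤ ((t : ℝ) + 1) * (2 ^ (m * m) * (1 / 2) ^ t) :=
        mul_le_mul_of_nonneg_left h5 (by positivity)
    _ = 2 ^ (m * m) * (((t : ℝ) + 1) * (1 / 2) ^ t) := by ring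

theorem norm_trm_le {b : ℕ → ℕ → Bool} {K t : ℕ} (hK : 1 ≤ K) {z : ℂ} {R : ℝ} (hR : 0 ≤ R)
    (hz : ‖z‖ ≤ R) : ‖trm b K t z‖ ≤ (1 / 2) ^ (K - 1) * maj R t := by
  refine (norm_trm (C := R + 1) (by linarith) (norm_sub_r hz)).trans ?_
  have h0 : (1 / 2 : ℝ) ^ (K - 1) * maj R t =
      (1 / 2 : ℝ) ^ (K - 1 + 4 ^ (t + 1)) * ((t + 1) * (R + 1) ^ t) := by
    unfold maj
    rw [← mul_assoc, ← pow_add]
  rw [h0]
  refine mul_le_mul_of_nonneg_right ?_ (by positivity)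
  refine pow_le_pow_of_le_one (by norm_num) (by norm_num) ?_
  obtain ⟨k, rfl⟩ : ∃ k, K = k + 1 := ⟨K - 1, by omega⟩
  have h1 : 1 ≤ 4 ^ (t + 1) := Nat.one_le_pow _ _ (by norm_num)
  have h2 : k * 1 ≤ k * 4 ^ (t + 1) := Nat.mul_le_mul_left k h1
  rw [Nat.add_sub_cancel, add_mul, one_mul]
  omega

theorem norm_trm_le' {b : ℕ → ℕ → Bool} {K t : ℕ} (hK : 1 ≤ K) {z : ℂ} {R : ℝ} (hR : 0 ≤ R)
    (hz : ‖z‖ ≤ R) : ‖trm b K t z‖ ≤ maj R t := by
  refine (norm_trm_le hK hR hz).trans (mul_le_of_le_one_left (maj_nonneg hR t) ?_)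
  exact pow_le_one₀ (by norm_num) (by norm_num)

theorem differentiable_trm (b : ℕ → ℕ → Bool) (K t : ℕ) : Differentiable ℂ (trm b K t) := by
  unfold trm
  refine Differentiable.const_mul (Differentiable.fun_sum fun n _ => ?_) _
  split_ifs
  · exact Differentiable.fun_finsetProd fun j _ => differentiable_id.sub_const _
  · exact differentiable_const 0

theorem differentiable_ser (b : ℕ → ℕ → Bool) {K : ℕ} (hK : 1 ≤ K) :
    Differentiable ℂ (ser b K) := by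
  intro z
  have h1 : DifferentiableOn ℂ (fun w => ∑' t, trm b K t w) (Metric.ball 0 (‖z‖ + 1)) :=
    Complex.differentiableOn_tsum_of_summable_norm (summable_maj (R := ‖z‖ + 1) (by positivity))
      (fun t => (differentiable_trm b K t).differentiableOn) Metric.isOpen_ball
      (fun t w hw => norm_trm_le' hK (by positivity) (by
        rw [mem_ball_zero_iff] at hw
        exact hw.le))
  have hz : z ∈ Metric.ball (0 : ℂ) (‖z‖ + 1) := by
    rw [mem_ball_zero_iff]; linarith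
  exact (h1 z hz).differentiableAt (Metric.isOpen_ball.mem_nhds hz)

/-- The real terms. -/
noncomputable def trmR (b : ℕ → ℕ → Bool) (K t : ℕ) (x : ℝ) : ℝ :=
  (1 / 2) ^ (K * 4 ^ (t + 1)) * ∑ n ∈ range (t + 1),
    if b n t = true then ∏ j ∈ (range (t + 1)).erase n, (x - r j) else 0

theorem trm_ofReal (b : ℕ → ℕ → Bool) (K t : ℕ) (x : ℝ) :
    trm b K t (x : ℂ) = ((trmR b K t x : ℝ) : ℂ) := by
  unfold trm trmR
  rw [Complex.ofReal_mul, Complex.ofReal_sum]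
  congr 1
  · push_cast
    ring
  · refine sum_congr rfl fun n _ => ?_
    by_cases h : b n t = true
    · rw [if_pos h, if_pos h]
      push_cast
      rfl
    · rw [if_neg h, if_neg h, Complex.ofReal_zero]

theorem ser_ofReal (b : ℕ → ℕ → Bool) (K : ℕ) (x : ℝ) :
    ser b K (x : ℂ) = ((∑' t, trmR b K t x : ℝ) : ℂ) := by
  rw [Complex.ofReal_tsum]
  exact tsum_congr fun t => trm_ofReal b K t x

theorem summable_trm {b : ℕ → ℕ → Bool} {K : ℕ} (hK : 1 ≤ K) (z : ℂ) :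
    Summable fun t => ‖trm b K t z‖ :=
  Summable.of_nonneg_of_le (fun _ => norm_nonneg _) (fun _ => norm_trm_le' hK (norm_nonneg z) le_rfl)
    (summable_maj (norm_nonneg z))

theorem small {b : ℕ → ℕ → Bool} {K : ℕ} (hK : 1 ≤ K) {x : ℝ} (h0 : 0 ≤ x) (h1 : x ≤ 1) :
    ‖ser b K (x : ℂ)‖ ≤ 1 := by
  have hb : ∀ t, ‖trm b K t (x : ℂ)‖ ≤ (1 / 2) ^ t * (1 / 2) := by
    intro t
    refine (norm_trm (C := 1) le_rfl fun j => ?_).trans ?_
    · rw [← Complex.ofReal_sub, Complex.norm_real, Real.norm_eq_abs, abs_le]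
      exact ⟨by linarith [r_le j], by linarith [r_pos j]⟩
    · rw [one_pow, mul_one, ← pow_succ]
      have h2 : ((t : ℝ) + 1) ≤ 2 ^ (t + 1) := by
        have : t + 1 < 2 ^ (t + 1) := Nat.lt_two_pow_self
        exact_mod_cast this.le
      have h3 : 2 * (t + 1) ≤ K * 4 ^ (t + 1) := by
        have h4 : t + 1 < 2 ^ (t + 1) := Nat.lt_two_pow_self
        have h5 : 2 ≤ 2 ^ (t + 1) := by
          calc 2 = 2 ^ 1 := rfl
            _ ≤ 2 ^ (t + 1) := Nat.pow_le_pow_right (by norm_num) (by omega)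
        have h6 : 4 ^ (t + 1) = 2 ^ (t + 1) * 2 ^ (t + 1) := by rw [← mul_pow]; norm_num
        calc 2 * (t + 1) ≤ 2 ^ (t + 1) * 2 ^ (t + 1) := Nat.mul_le_mul h5 h4.le
          _ = 1 * 4 ^ (t + 1) := by rw [h6, one_mul]
          _ ≤ K * 4 ^ (t + 1) := Nat.mul_le_mul_right _ hK
      calc (1 / 2 : ℝ) ^ (K * 4 ^ (t + 1)) * ((t : ℝ) + 1)
          ≤ (1 / 2 : ℝ) ^ (2 * (t + 1)) * 2 ^ (t + 1) :=
            mul_le_mul (pow_le_pow_of_le_one (by norm_num) (by norm_num) h3) h2 (by positivity)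
              (by positivity)
        _ = (1 / 2) ^ (t + 1) := by
            rw [pow_mul, ← mul_pow]; norm_num
  have hs : HasSum (fun t : ℕ => (1 / 2 : ℝ) ^ t * (1 / 2)) 1 := by
    have := hasSum_geometric_two.mul_right (1 / 2 : ℝ)
    norm_num at this ⊢
    exact this
  exact tsum_of_norm_bounded hs hb

/-- **EU-ANA.** -/
theorem _root_.Pool.Agent.Y967.EU.ana : S_ANA := by
  refine ⟨fun b K hK => ⟨differentiable_ser b hK, fun x => ?_, fun x h0 h1 => ?_⟩,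
    fun R ε hε => ?_⟩
  · rw [ser_ofReal, Complex.ofReal_im]
  · exact (Complex.abs_re_le_norm _).trans (small hK h0 h1)
  · have hR : 0 ≤ |R| := abs_nonneg R
    set C : ℝ := ∑' t, maj |R| t with hC
    have hC0 : 0 ≤ C := tsum_nonneg (maj_nonneg hR)
    obtain ⟨n, hn⟩ := exists_pow_lt_of_lt_one (show 0 < ε / (C + 1) by positivity)
      (show (1 / 2 : ℝ) < 1 by norm_num)
    refine ⟨n + 1, fun K hK b z hz => ?_⟩
    have hK1 : 1 ≤ K := by omega
    have h1 : HasSum (fun t => (1 / 2 : ℝ) ^ (K - 1) * maj |R| t) ((1 / 2 : ℝ) ^ (K - 1) * C) :=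
      (summable_maj hR).hasSum.mul_left _
    refine (tsum_of_norm_bounded h1 fun t => norm_trm_le hK1 hR (hz.trans (le_abs_self R))).trans ?_
    have h2 : (1 / 2 : ℝ) ^ (K - 1) ≤ (1 / 2) ^ n :=
      pow_le_pow_of_le_one (by norm_num) (by norm_num) (by omega)
    calc (1 / 2 : ℝ) ^ (K - 1) * C ≤ ε / (C + 1) * (C + 1) :=
          mul_le_mul (h2.trans hn.le) (by linarith) hC0 (by positivity)
      _ = ε := div_mul_cancel₀ _ (by positivity)

end Pool.Agent.Y967.EU.Ana
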