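import Pool.Agent.Y967.EU.Stm

set_option autoImplicit false

/-!
Analyticity of the fields and rational approximation of entire functions.
-/

open Finset Polynomial

namespace Pool.Agent.Y967.EU

open Pool.Agent.H870R3

namespace AnfAux

theorem an_re {E : Type*} [NormedAddCommGroup E] [NormedSpace ℝ E] {G : ℂ → ℂ}
    (hG : Differentiable ℂ G) {f : E → ℝ} {x : E} (hf : AnalyticAt ℝ f x) :
    AnalyticAt ℝ (fun y => (G (f y : ℂ)).re) x := by
  have h1 : AnalyticAt ℝ G ((f x : ℂ)) := (hG.analyticAt _).restrictScalars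
  have h2 : AnalyticAt ℝ (fun y => ((f y : ℝ) : ℂ)) x :=
    (Complex.ofRealCLM.analyticAt (f x)).comp hf
  have h3 : AnalyticAt ℝ (fun y => G (f y : ℂ)) x := AnalyticAt.comp (g := G) h1 h2
  exact (Complex.reCLM.analyticAt _).comp h3

theorem an_coord (i : Fin 4) (x : E4) : AnalyticAt ℝ (fun y : E4 => y i) x :=
  (EuclideanSpace.proj i : E4 →L[ℝ] ℝ).analyticAt x

theorem real_deriv {H : ℂ → ℂ} (hH : Differentiable ℂ H) (h0 : ∀ x : ℝ, (H x).im = 0) (x : ℝ) :
    (deriv H x).im = 0 := by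
  have h1 : HasDerivAt H (deriv H x) (x : ℂ) := (hH x).hasDerivAt
  have h2 : HasDerivAt (fun y : ℝ => H y) (deriv H x) x := h1.comp_ofReal
  have h3 : HasDerivAt (fun y : ℝ => (H y).im) (deriv H x).im x :=
    (Complex.imCLM.hasFDerivAt).comp_hasDerivAt x h2
  have h4 : (fun y : ℝ => (H y).im) = fun _ => 0 := by
    funext y
    exact h0 y
  rw [h4] at h3
  exact h3.unique (hasDerivAt_const x 0)

theorem real_iter {G : ℂ → ℂ} (hG : Differentiable ℂ G) (h0 : ∀ x : ℝ, (G x).im = 0) (n : ℕ) :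
    Differentiable ℂ (iteratedDeriv n G) ∧ ∀ x : ℝ, (iteratedDeriv n G x).im = 0 := by
  induction n with
  | zero =>
    rw [iteratedDeriv_zero]
    exact ⟨hG, h0⟩
  | succ n ih =>
    rw [iteratedDeriv_succ]
    exact ⟨ih.1.deriv, real_deriv ih.1 ih.2⟩

end AnfAux

open AnfAux in
theorem anf : S_ANF := by
  intro G hG
  refine ⟨fun x _ => an_re hG analyticAt_id, fun x _ => ?_, fun x _ => ?_⟩
  · have hF : AnalyticAt ℝ (fun y : E4 => (G ((y 0 ^ 2 + y 1 ^ 2 : ℝ) : ℂ)).re) x :=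
      an_re hG (((an_coord 0 x).pow 2).add ((an_coord 1 x).pow 2))
    have h1 : AnalyticAt ℝ (fun y : E4 => fun i => fieldS (fun x : ℝ => (G x).re) y i) x := by
      rw [analyticAt_pi_iff]
      intro i
      fin_cases i
      · exact (an_coord 1 x).neg
      · exact an_coord 0 x
      · exact (hF.mul (an_coord 3 x)).neg
      · exact hF.mul (an_coord 2 x)
    exact (((EuclideanSpace.equiv (Fin 4) ℝ).symm : (Fin 4 → ℝ) →L[ℝ] E4).analyticAt
      (fun i => fieldS (fun x : ℝ => (G x).re) x i)).comp h1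
  · have h0 : AnalyticAt ℝ (fun y : E3 => y 0) x :=
      (EuclideanSpace.proj (0 : Fin 3) : E3 →L[ℝ] ℝ).analyticAt x
    have h1 : AnalyticAt ℝ (fun y : E3 => Real.sin (Real.pi * y 0)) x :=
      AnalyticAt.comp (g := Real.sin) Real.analyticAt_sin (analyticAt_const.mul h0)
    have h2 : AnalyticAt ℝ (fun y : E3 => (G ((Real.sin (Real.pi * y 0) ^ 2 : ℝ) : ℂ)).re) x :=
      an_re hG (h1.pow 2)
    exact analyticAt_const.add (h2.smul analyticAt_const)

open AnfAux in
theorem dens : S_DENS := by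
  intro G hG h0 R ε hε
  set a : ℕ → ℂ := fun n => (n.factorial : ℂ)⁻¹ * iteratedDeriv n G 0 with ha
  have hareal : ∀ n, (a n).im = 0 := by
    intro n
    have h1 := (real_iter hG h0 n).2 0
    have h2 : a n = (((n.factorial : ℝ)⁻¹ : ℝ) : ℂ) * iteratedDeriv n G 0 := by
      simp [ha]
    rw [h2, Complex.im_ofReal_mul]
    rw [Complex.ofReal_zero] at h1
    rw [h1, mul_zero]
  have hsum : ∀ z : ℂ, HasSum (fun n => a n * z ^ n) (G z) := by
    intro z
    have h1 := Complex.hasSum_taylorSeries_of_entire hG 0 z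
    refine h1.congr_fun ?_ 
    intro n
    simp only [ha, sub_zero, smul_eq_mul]
    ring
  set S : ℝ := max R 1 with hS
  have hS1 : 1 ≤ S := le_max_right _ _
  have hS0 : 0 < S := by linarith
  have hsumm : Summable fun n => ‖a n‖ * S ^ n := by
    have h1 := (hsum (S : ℂ)).summable.norm
    refine h1.congr fun n => ?_
    rw [norm_mul, norm_pow, Complex.norm_real, Real.norm_of_nonneg hS0.le]
  obtain ⟨N, hN⟩ : ∃ N : ℕ, ∑' n, ‖a (n + N)‖ * S ^ (n + N) < ε / 2 := by
    have h1 := tendsto_sum_nat_add fun n => ‖a n‖ * S ^ n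
    exact (h1.eventually (gt_mem_nhds (half_pos hε))).exists
  have hq : ∀ n : ℕ, ∃ q : ℚ, |(a n).re - q| < ε / (2 * (N + 1) * S ^ N) :=
    fun n => exists_rat_near _ (by positivity)
  choose q hq using hq
  refine ⟨∑ n ∈ range N, C (q n) * X ^ n, fun z hz => ?_⟩
  have hzS : ‖z‖ ≤ S := hz.trans (le_max_left _ _)
  have haev : aeval z (∑ n ∈ range N, C (q n) * X ^ n : ℚ[X]) =
      ∑ n ∈ range N, ((q n : ℝ) : ℂ) * z ^ n := by
    rw [map_sum]
    refine Finset.sum_congr rfl fun n _ => ?_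
    rw [map_mul, map_pow, aeval_X, aeval_C]
    simp
  have hG1 : G z = ∑ n ∈ range N, a n * z ^ n + ∑' n, a (n + N) * z ^ (n + N) := by
    rw [(hsum z).summable.sum_add_tsum_nat_add N, (hsum z).tsum_eq]
  have htail : ‖∑' n, a (n + N) * z ^ (n + N)‖ ≤ ε / 2 := by
    have hsN : Summable fun n => ‖a (n + N)‖ * S ^ (n + N) :=
      (summable_nat_add_iff (f := fun n => ‖a n‖ * S ^ n) N).mpr hsumm
    refine (tsum_of_norm_bounded hsN.hasSum fun n => ?_).trans hN.le
    rw [norm_mul, norm_pow]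
    exact mul_le_mul_of_nonneg_left (pow_le_pow_left₀ (norm_nonneg _) hzS _) (norm_nonneg _)
  have hhead : ‖∑ n ∈ range N, ((q n : ℝ) : ℂ) * z ^ n - ∑ n ∈ range N, a n * z ^ n‖ ≤ ε / 2 := by
    rw [← Finset.sum_sub_distrib]
    refine (norm_sum_le _ _).trans ?_
    have hterm : ∀ n ∈ range N, ‖((q n : ℝ) : ℂ) * z ^ n - a n * z ^ n‖ ≤ ε / (2 * (N + 1)) := by
      intro n hn
      have hn' := Finset.mem_range.mp hn
      have e1 : a n = (((a n).re : ℝ) : ℂ) := by
        apply Complex.ext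
        · simp
        · rw [hareal n]
          simp
      have e2 : ((q n : ℝ) : ℂ) * z ^ n - a n * z ^ n =
          (((q n : ℝ) - (a n).re : ℝ) : ℂ) * z ^ n := by
        conv_lhs => rw [e1]
        push_cast
        ring
      rw [e2, norm_mul, norm_pow, Complex.norm_real, Real.norm_eq_abs, abs_sub_comm]
      have e3 : ‖z‖ ^ n ≤ S ^ N :=
        (pow_le_pow_left₀ (norm_nonneg _) hzS _).trans (pow_le_pow_right₀ hS1 hn'.le)
      calc |(a n).re - q n| * ‖z‖ ^ n ≤ (ε / (2 * (N + 1) * S ^ N)) * S ^ N := by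
            refine mul_le_mul (hq n).le e3 (by positivity) (by positivity)
        _ = ε / (2 * (N + 1)) := by
            field_simp
    refine (Finset.sum_le_sum hterm).trans ?_
    rw [Finset.sum_const, Finset.card_range, nsmul_eq_mul]
    rw [mul_div_assoc', div_le_div_iff₀ (by positivity) (by norm_num)]
    nlinarith
  rw [haev, hG1]
  calc ‖∑ n ∈ range N, ((q n : ℝ) : ℂ) * z ^ n -
        (∑ n ∈ range N, a n * z ^ n + ∑' n, a (n + N) * z ^ (n + N))‖ =
        ‖(∑ n ∈ range N, ((q n : ℝ) : ℂ) * z ^ n - ∑ n ∈ range N, a n * z ^ n) -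
          ∑' n, a (n + N) * z ^ (n + N)‖ := by
        congr 1
        ring
    _ ≤ ε / 2 + ε / 2 := (norm_sub_le _ _).trans (add_le_add hhead htail)
    _ = ε := by ring

end Pool.Agent.Y967.EU
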