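import Pool.Agent.Y967.EU.Stm

set_option autoImplicit false

/-!
The sphere field is a stationary Euler flow.
-/

namespace Pool.Agent.Y967.EU

open Pool.Agent.H870R3

namespace EulsAux

/-- The coordinate projections. -/
noncomputable def pr (i : Fin 4) : E4 →L[ℝ] ℝ := EuclideanSpace.proj i

theorem pr_apply (i : Fin 4) (v : E4) : pr i v = v i := rfl

theorem hasFDerivAt_pr (i : Fin 4) (x : E4) : HasFDerivAt (fun y : E4 => y i) (pr i) x :=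
  (pr i).hasFDerivAt

theorem hasFDerivAt_rho (x : E4) :
    HasFDerivAt (fun y : E4 => y 0 ^ 2 + y 1 ^ 2) ((2 * x 0) • pr 0 + (2 * x 1) • pr 1) x := by
  have hp : ∀ u : ℝ, HasDerivAt (fun s : ℝ => s ^ 2) (2 * u) u := fun u => by
    simpa using hasDerivAt_pow 2 u
  have h0 := (hp (x 0)).comp_hasFDerivAt x (hasFDerivAt_pr 0 x)
  have h1 := (hp (x 1)).comp_hasFDerivAt x (hasFDerivAt_pr 1 x)
  exact h0.add h1

theorem contDiff_coord (i : Fin 4) : ContDiff ℝ (⊤ : ℕ∞) (fun y : E4 => y i) := (pr i).contDiff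

theorem contDiff_rho : ContDiff ℝ (⊤ : ℕ∞) (fun y : E4 => y 0 ^ 2 + y 1 ^ 2) :=
  ((contDiff_coord 0).pow 2).add ((contDiff_coord 1).pow 2)

theorem hasDeriv_F {F : ℝ → ℝ} (hF : ContDiff ℝ (⊤ : ℕ∞) F) (u : ℝ) :
    HasDerivAt F (deriv F u) u := (hF.differentiable (by simp) u).hasDerivAt

theorem hasFDerivAt_Frho {F : ℝ → ℝ} (hF : ContDiff ℝ (⊤ : ℕ∞) F) (x : E4) :
    HasFDerivAt (fun y : E4 => F (y 0 ^ 2 + y 1 ^ 2))
      (deriv F (x 0 ^ 2 + x 1 ^ 2) • ((2 * x 0) • pr 0 + (2 * x 1) • pr 1)) x :=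
  (hasDeriv_F hF _).comp_hasFDerivAt x (hasFDerivAt_rho x)

/-- The coordinates of the derivative. -/
theorem smooth_field {F : ℝ → ℝ} (hF : ContDiff ℝ (⊤ : ℕ∞) F) :
    ContDiff ℝ (⊤ : ℕ∞) (fieldS F) := by
  rw [contDiff_euclidean]
  have hFr : ContDiff ℝ (⊤ : ℕ∞) (fun y : E4 => F (y 0 ^ 2 + y 1 ^ 2)) := hF.comp contDiff_rho
  intro i
  fin_cases i
  · exact (contDiff_coord 1).neg
  · exact contDiff_coord 0
  · exact (hFr.mul (contDiff_coord 3)).neg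
  · exact hFr.mul (contDiff_coord 2)

theorem fderiv_coord {F : ℝ → ℝ} (hF : ContDiff ℝ (⊤ : ℕ∞) F) (x v : E4) (i : Fin 4)
    {L : E4 →L[ℝ] ℝ} (hL : HasFDerivAt (fun y => fieldS F y i) L x) :
    (fderiv ℝ (fieldS F) x v) i = L v := by
  have hd : DifferentiableAt ℝ (fieldS F) x := (smooth_field hF).differentiable (by simp) x
  have h1 : HasFDerivAt (fun y => fieldS F y i) ((pr i).comp (fderiv ℝ (fieldS F) x)) x :=
    (pr i).hasFDerivAt.comp x hd.hasFDerivAt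
  have := h1.unique hL
  rw [← this]
  rfl

theorem f0 {F : ℝ → ℝ} (hF : ContDiff ℝ (⊤ : ℕ∞) F) (x v : E4) :
    (fderiv ℝ (fieldS F) x v) 0 = - v 1 :=
  fderiv_coord hF x v 0 (L := -pr 1) (hasFDerivAt_pr 1 x).neg

theorem f1 {F : ℝ → ℝ} (hF : ContDiff ℝ (⊤ : ℕ∞) F) (x v : E4) :
    (fderiv ℝ (fieldS F) x v) 1 = v 0 :=
  fderiv_coord hF x v 1 (L := pr 0) (hasFDerivAt_pr 0 x)

theorem f2 {F : ℝ → ℝ} (hF : ContDiff ℝ (⊤ : ℕ∞) F) (x v : E4) :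
    (fderiv ℝ (fieldS F) x v) 2 = -(F (x 0 ^ 2 + x 1 ^ 2) * v 3 +
      x 3 * (deriv F (x 0 ^ 2 + x 1 ^ 2) * (2 * x 0 * v 0 + 2 * x 1 * v 1))) := by
  have h := ((hasFDerivAt_Frho hF x).mul (hasFDerivAt_pr 3 x)).neg
  have h2 := fderiv_coord hF x v 2 h
  rw [h2]
  simp [pr_apply]
  ring

theorem f3 {F : ℝ → ℝ} (hF : ContDiff ℝ (⊤ : ℕ∞) F) (x v : E4) :
    (fderiv ℝ (fieldS F) x v) 3 = F (x 0 ^ 2 + x 1 ^ 2) * v 2 +
      x 2 * (deriv F (x 0 ^ 2 + x 1 ^ 2) * (2 * x 0 * v 0 + 2 * x 1 * v 1)) := by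
  have h := (hasFDerivAt_Frho hF x).mul (hasFDerivAt_pr 2 x)
  have h2 := fderiv_coord hF x v 3 h
  rw [h2]
  simp [pr_apply]
  ring

theorem inner4 (x y : E4) : inner ℝ x y = x 0 * y 0 + x 1 * y 1 + x 2 * y 2 + x 3 * y 3 := by
  rw [PiLp.inner_apply, Fin.sum_univ_four]
  simp [mul_comm]

theorem norm4 (x : E4) : ‖x‖ ^ 2 = x 0 ^ 2 + x 1 ^ 2 + x 2 ^ 2 + x 3 ^ 2 := by
  rw [← real_inner_self_eq_norm_sq, inner4]
  ring

/-- The potential of the pressure. -/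
noncomputable def PP (F : ℝ → ℝ) (u : ℝ) : ℝ := ∫ v in (0 : ℝ)..u, (1 - F v ^ 2) / 2

theorem hasDeriv_PP {F : ℝ → ℝ} (hF : ContDiff ℝ (⊤ : ℕ∞) F) (u : ℝ) :
    HasDerivAt (PP F) ((1 - F u ^ 2) / 2) u := by
  have hc : Continuous fun v => (1 - F v ^ 2) / 2 := by
    have := hF.continuous
    fun_prop
  exact intervalIntegral.integral_hasDerivAt_right (hc.intervalIntegrable _ _)
    hc.stronglyMeasurable.stronglyMeasurableAtFilter hc.continuousAt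

theorem smooth_PP {F : ℝ → ℝ} (hF : ContDiff ℝ (⊤ : ℕ∞) F) : ContDiff ℝ (⊤ : ℕ∞) (PP F) := by
  rw [contDiff_infty_iff_deriv]
  refine ⟨fun u => (hasDeriv_PP hF u).differentiableAt, ?_⟩
  have : deriv (PP F) = fun u => (1 - F u ^ 2) / 2 := by
    funext u
    exact (hasDeriv_PP hF u).deriv
  rw [this]
  exact (contDiff_const.sub (hF.pow 2)).div_const 2

theorem grad_PP {F : ℝ → ℝ} (hF : ContDiff ℝ (⊤ : ℕ∞) F) (x : E4) :
    gradient (fun y : E4 => PP F (y 0 ^ 2 + y 1 ^ 2)) x =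
      (!₂[(1 - F (x 0 ^ 2 + x 1 ^ 2) ^ 2) * x 0, (1 - F (x 0 ^ 2 + x 1 ^ 2) ^ 2) * x 1, 0, 0] :
        E4) := by
  have h := (hasDeriv_PP hF (x 0 ^ 2 + x 1 ^ 2)).comp_hasFDerivAt x (hasFDerivAt_rho x)
  refine HasGradientAt.gradient ?_
  rw [hasGradientAt_iff_hasFDerivAt]
  refine h.congr_fderiv ?_
  ext v
  rw [InnerProductSpace.toDual_apply_apply, inner4]
  simp [pr_apply]
  ring

end EulsAux

open EulsAux in
theorem euls : S_EULS := by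
  intro F hF
  refine ⟨smooth_field hF, fun x _ => ?_, fun x _ => ?_, ?_⟩
  · rw [inner4]
    simp only [fieldS, PiLp.toLp_apply, Matrix.cons_val]
    ring
  · rw [inner4, Fin.sum_univ_four, f0 hF, f1 hF, f2 hF, f3 hF, f0 hF, f1 hF, f2 hF, f3 hF]
    simp [e4]
    ring
  · refine ⟨fun y : E4 => PP F (y 0 ^ 2 + y 1 ^ 2), (smooth_PP hF).comp contDiff_rho,
      fun x hx => ?_⟩
    rw [grad_PP hF]
    set c := F (x 0 ^ 2 + x 1 ^ 2) with hc
    have hn : x 0 ^ 2 + x 1 ^ 2 + x 2 ^ 2 + x 3 ^ 2 = 1 := by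
      rw [← norm4, hx, one_pow]
    have e0 : (fderiv ℝ (fieldS F) x (fieldS F x)) 0 = - x 0 := by
      rw [f0 hF]
      simp [fieldS]
    have e1 : (fderiv ℝ (fieldS F) x (fieldS F x)) 1 = - x 1 := by
      rw [f1 hF]
      simp [fieldS]
    have e2 : (fderiv ℝ (fieldS F) x (fieldS F x)) 2 = - (c ^ 2 * x 2) := by
      rw [f2 hF]
      simp [fieldS, ← hc]
      ring
    have e3 : (fderiv ℝ (fieldS F) x (fieldS F x)) 3 = - (c ^ 2 * x 3) := by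
      rw [f3 hF]
      simp [fieldS, ← hc]
      ring
    unfold tang
    rw [inner4, inner4, e0, e1, e2, e3]
    ext i
    fin_cases i
    · simp [e0]
      linear_combination (c ^ 2 * x 0) * hn
    · simp [e1]
      linear_combination (c ^ 2 * x 1) * hn
    · simp [e2]
      linear_combination (c ^ 2 * x 2) * hn
    · simp [e3]
      linear_combination (c ^ 2 * x 3) * hn

end Pool.Agent.Y967.EU
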