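import Pool.Agent.Y967.EU.Stm

set_option autoImplicit false

/-!
Orbits of the sphere field.
-/

namespace Pool.Agent.Y967.EU

open Pool.Agent.H870R3

namespace FlowAux

theorem hasDerivAt_of_coord {γ : ℝ → E4} {v : E4} {t : ℝ}
    (h : ∀ i, HasDerivAt (fun s => γ s i) (v i) t) : HasDerivAt γ v t := by
  have h1 : HasDerivAt (fun s => fun i => γ s i) (fun i => v i) t := hasDerivAt_pi.mpr h
  exact (((EuclideanSpace.equiv (Fin 4) ℝ).symm : (Fin 4 → ℝ) →L[ℝ] E4).hasFDerivAt
    (x := fun i => γ t i)).comp_hasDerivAt t h1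

theorem coord_of_hasDerivAt {γ : ℝ → E4} {v : E4} {t : ℝ} (h : HasDerivAt γ v t) (i : Fin 4) :
    HasDerivAt (fun s => γ s i) (v i) t :=
  ((EuclideanSpace.proj i : E4 →L[ℝ] ℝ).hasFDerivAt).comp_hasDerivAt t h

theorem hasDerivAt_cos_mul (c t : ℝ) :
    HasDerivAt (fun s => Real.cos (c * s)) (-(c * Real.sin (c * t))) t := by
  have h := ((hasDerivAt_id t).const_mul c).cos
  refine h.congr_deriv ?_
  simp only [id]
  ring

theorem hasDerivAt_sin_mul (c t : ℝ) :
    HasDerivAt (fun s => Real.sin (c * s)) (c * Real.cos (c * t)) t := by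
  have h := ((hasDerivAt_id t).const_mul c).sin
  refine h.congr_deriv ?_
  simp only [id]
  ring

theorem rot_ode {a b : ℝ → ℝ} {c : ℝ} (ha : ∀ t, HasDerivAt a (-(c * b t)) t)
    (hb : ∀ t, HasDerivAt b (c * a t) t) (t : ℝ) :
    a t = a 0 * Real.cos (c * t) - b 0 * Real.sin (c * t) ∧
      b t = a 0 * Real.sin (c * t) + b 0 * Real.cos (c * t) := by
  have hu : ∀ s, HasDerivAt (fun s => a s * Real.cos (c * s) + b s * Real.sin (c * s)) 0 s := by
    intro s
    refine (((ha s).mul (hasDerivAt_cos_mul c s)).add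
      ((hb s).mul (hasDerivAt_sin_mul c s))).congr_deriv ?_
    ring
  have hv : ∀ s, HasDerivAt (fun s => b s * Real.cos (c * s) - a s * Real.sin (c * s)) 0 s := by
    intro s
    refine (((hb s).mul (hasDerivAt_cos_mul c s)).sub
      ((ha s).mul (hasDerivAt_sin_mul c s))).congr_deriv ?_
    ring
  have hu1 := is_const_of_deriv_eq_zero (fun s => (hu s).differentiableAt)
    (fun s => (hu s).deriv) t 0
  have hv1 := is_const_of_deriv_eq_zero (fun s => (hv s).differentiableAt)
    (fun s => (hv s).deriv) t 0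
  simp only [mul_zero, Real.cos_zero, Real.sin_zero, mul_one, add_zero, sub_zero] at hu1 hv1
  have hsc := Real.sin_sq_add_cos_sq (c * t)
  rw [← hu1, ← hv1]
  constructor
  · linear_combination -(a t) * hsc
  · linear_combination -(b t) * hsc

end FlowAux

open FlowAux in
theorem flow : S_FLOW := by
  intro F
  refine ⟨fun γ hγ t => ?_, fun x => ⟨?_, fun t => ?_⟩⟩
  · have h0 : ∀ t, HasDerivAt (fun s => γ s 0) (-(1 * γ t 1)) t := fun t =>
      (coord_of_hasDerivAt (hγ t) 0).congr_deriv (by simp [fieldS])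
    have h1 : ∀ t, HasDerivAt (fun s => γ s 1) (1 * γ t 0) t := fun t =>
      (coord_of_hasDerivAt (hγ t) 1).congr_deriv (by simp [fieldS])
    have hrho : ∀ t, γ t 0 ^ 2 + γ t 1 ^ 2 = γ 0 0 ^ 2 + γ 0 1 ^ 2 := by
      intro t
      have hr : ∀ s, HasDerivAt (fun s => γ s 0 ^ 2 + γ s 1 ^ 2) 0 s := by
        intro s
        refine (((h0 s).fun_pow 2).add ((h1 s).fun_pow 2)).congr_deriv ?_
        push_cast
        ring
      exact is_const_of_deriv_eq_zero (fun s => (hr s).differentiableAt)
        (fun s => (hr s).deriv) t 0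
    set c := F ((γ 0) 0 ^ 2 + (γ 0) 1 ^ 2) with hc
    have h2 : ∀ t, HasDerivAt (fun s => γ s 2) (-(c * γ t 3)) t := fun t =>
      (coord_of_hasDerivAt (hγ t) 2).congr_deriv (by simp [fieldS, hrho t, hc])
    have h3 : ∀ t, HasDerivAt (fun s => γ s 3) (c * γ t 2) t := fun t =>
      (coord_of_hasDerivAt (hγ t) 3).congr_deriv (by simp [fieldS, hrho t, hc])
    obtain ⟨q0, q1⟩ := rot_ode h0 h1 t
    obtain ⟨q2, q3⟩ := rot_ode h2 h3 t
    rw [one_mul] at q0 q1
    ext i
    fin_cases i
    · simpa [rot] using q0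
    · simpa [rot] using q1
    · simpa [rot] using q2
    · simpa [rot] using q3
  · ext i
    fin_cases i <;> simp [rot]
  · set c := F (x 0 ^ 2 + x 1 ^ 2) with hc
    have hrho : (rot t (c * t) x) 0 ^ 2 + (rot t (c * t) x) 1 ^ 2 = x 0 ^ 2 + x 1 ^ 2 := by
      have hsc := Real.sin_sq_add_cos_sq t
      simp only [rot, PiLp.toLp_apply, Matrix.cons_val_zero, Matrix.cons_val_one]
      linear_combination (x 0 ^ 2 + x 1 ^ 2) * hsc
    have hcos : HasDerivAt (fun s : ℝ => Real.cos s) (-Real.sin t) t := Real.hasDerivAt_cos t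
    have hsin : HasDerivAt (fun s : ℝ => Real.sin s) (Real.cos t) t := Real.hasDerivAt_sin t
    refine hasDerivAt_of_coord fun i => ?_
    fin_cases i
    · have h := (hcos.const_mul (x 0)).sub (hsin.const_mul (x 1))
      refine h.congr_deriv ?_
      simp only [fieldS, rot, PiLp.toLp_apply, Matrix.cons_val_zero, Matrix.cons_val_one,
        Fin.zero_eta, Fin.isValue]
      ring
    · have h := (hsin.const_mul (x 0)).add (hcos.const_mul (x 1))
      refine h.congr_deriv ?_
      simp only [fieldS, rot, PiLp.toLp_apply, Matrix.cons_val_zero, Matrix.cons_val_one,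
        Fin.mk_one, Fin.isValue]
      ring
    · have h := ((hasDerivAt_cos_mul c t).const_mul (x 2)).sub
        ((hasDerivAt_sin_mul c t).const_mul (x 3))
      refine h.congr_deriv ?_
      have : fieldS F (rot t (c * t) x) 2 = -(c * (rot t (c * t) x) 3) := by
        have : fieldS F (rot t (c * t) x) 2 =
            -(F ((rot t (c * t) x) 0 ^ 2 + (rot t (c * t) x) 1 ^ 2) * (rot t (c * t) x) 3) := rfl
        rw [this, hrho]
      refine Eq.trans ?_ this.symm
      have h3 : (rot t (c * t) x) 3 = x 2 * Real.sin (c * t) + x 3 * Real.cos (c * t) := rfl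
      rw [h3]
      ring
    · have h := ((hasDerivAt_sin_mul c t).const_mul (x 2)).add
        ((hasDerivAt_cos_mul c t).const_mul (x 3))
      refine h.congr_deriv ?_
      have : fieldS F (rot t (c * t) x) 3 = c * (rot t (c * t) x) 2 := by
        have : fieldS F (rot t (c * t) x) 3 =
            F ((rot t (c * t) x) 0 ^ 2 + (rot t (c * t) x) 1 ^ 2) * (rot t (c * t) x) 2 := rfl
        rw [this, hrho]
      refine Eq.trans ?_ this.symm
      have h3 : (rot t (c * t) x) 2 = x 2 * Real.cos (c * t) - x 3 * Real.sin (c * t) := rfl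
      rw [h3]
      ring

end Pool.Agent.Y967.EU
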