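import Pool.Agent.Y967.EU.Stm

set_option autoImplicit false

open Finset Polynomial

namespace Pool.Agent.Y967.EU.Ineq

open Pool.Agent.Y967.EU

theorem one_le (k : ℕ) : 1 + 4 ^ k ≤ 2 ^ (2 * k + 1) := by
  have h : (4 : ℕ) ^ k = 2 ^ (2 * k) := by rw [pow_mul]; norm_num
  have h2 : 1 ≤ 2 ^ (2 * k) := Nat.one_le_two_pow
  rw [h, pow_succ]
  omega

theorem prod_le (k : ℕ) : ∏ j ∈ range k, (1 + 4 ^ j) ≤ 2 ^ (k ^ 2) := by
  induction k with
  | zero => simp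
  | succ k ih =>
    rw [prod_range_succ]
    calc (∏ j ∈ range k, (1 + 4 ^ j)) * (1 + 4 ^ k) ≤ 2 ^ (k ^ 2) * 2 ^ (2 * k + 1) :=
          Nat.mul_le_mul ih (one_le k)
      _ = 2 ^ ((k + 1) ^ 2) := by rw [← pow_add]; congr 1; ring

theorem sq_le (k : ℕ) : k ^ 2 ≤ 4 ^ k := by
  have h : k < 2 ^ k := Nat.lt_two_pow_self
  calc k ^ 2 ≤ (2 ^ k) ^ 2 := Nat.pow_le_pow_left h.le 2
    _ = 4 ^ k := by rw [← pow_mul, mul_comm, pow_mul]; norm_num

theorem Q_le (D m K k : ℕ) :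
    Q D m K k ≤ D * 2 ^ (m * (2 * k + 1) + K * 4 ^ k + k * (2 * k + 1) + k ^ 2) := by
  unfold Q
  have h1 : (1 + 4 ^ k) ^ m ≤ 2 ^ (m * (2 * k + 1)) := by
    rw [mul_comm, pow_mul]; exact Nat.pow_le_pow_left (one_le k) m
  have h2 : (1 + 4 ^ k) ^ k ≤ 2 ^ (k * (2 * k + 1)) := by
    rw [mul_comm, pow_mul]; exact Nat.pow_le_pow_left (one_le k) k
  calc D * (1 + 4 ^ k) ^ m * (2 ^ (K * 4 ^ k) * (1 + 4 ^ k) ^ k * ∏ j ∈ range k, (1 + 4 ^ j))
      ≤ D * 2 ^ (m * (2 * k + 1)) * (2 ^ (K * 4 ^ k) * 2 ^ (k * (2 * k + 1)) * 2 ^ (k ^ 2)) := by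
        gcongr
        exact prod_le k
    _ = _ := by rw [pow_add, pow_add, pow_add]; ring

theorem ineq : S_INEQ := by
  intro D m M
  obtain ⟨c, hc⟩ : ∃ c : ℕ, 64 * (M + 2) * D ^ 2 < 2 ^ c := ⟨_, Nat.lt_two_pow_self⟩
  refine ⟨c + 4 * m + 20, fun K hK k => ?_⟩
  have h1 := Q_le D m K k
  have hk1 : 1 ≤ 4 ^ k := Nat.one_le_pow _ _ (by norm_num)
  have hk2 : k < 4 ^ k := Nat.lt_pow_self (by norm_num)
  have hk3 := sq_le k
  set X := 4 ^ k with hX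
  have key : c + k + 2 * (m * (2 * k + 1) + k * (2 * k + 1) + k ^ 2) ≤ 2 * (K * X) := by
    have e1 : m * (2 * k + 1) ≤ 3 * m * X := by
      calc m * (2 * k + 1) ≤ m * (3 * X) := Nat.mul_le_mul_left _ (by omega)
        _ = _ := by ring
    have e2 : k * (2 * k + 1) ≤ 3 * X := by
      have : k * (2 * k + 1) = 2 * k ^ 2 + k := by ring
      omega
    have e3 : c ≤ c * X := Nat.le_mul_of_pos_right _ hk1
    have e4 : (c + 4 * m + 20) * X ≤ K * X := Nat.mul_le_mul_right _ hK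
    have e5 : (c + 4 * m + 20) * X = c * X + 4 * m * X + 20 * X := by ring
    have e6 : 3 * m * X ≤ 4 * m * X := Nat.mul_le_mul_right _ (by omega)
    omega
  calc 64 * (M + 2) * 2 ^ k * Q D m K k ^ 2
      ≤ 64 * (M + 2) * 2 ^ k *
        (D * 2 ^ (m * (2 * k + 1) + K * X + k * (2 * k + 1) + k ^ 2)) ^ 2 := by gcongr
    _ = (64 * (M + 2) * D ^ 2) * 2 ^ (k + 2 * (m * (2 * k + 1) + k * (2 * k + 1) + k ^ 2)) *
        2 ^ (2 * (K * X)) := by
        rw [mul_pow, ← pow_mul]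
        have : 2 ^ ((m * (2 * k + 1) + K * X + k * (2 * k + 1) + k ^ 2) * 2) =
            2 ^ (2 * (m * (2 * k + 1) + k * (2 * k + 1) + k ^ 2)) * 2 ^ (2 * (K * X)) := by
          rw [← pow_add]; congr 1; ring
        rw [this, pow_add]
        ring
    _ < 2 ^ c * 2 ^ (k + 2 * (m * (2 * k + 1) + k * (2 * k + 1) + k ^ 2)) *
        2 ^ (2 * (K * X)) := by gcongr
    _ = 2 ^ (c + k + 2 * (m * (2 * k + 1) + k * (2 * k + 1) + k ^ 2)) * 2 ^ (2 * (K * X)) := by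
        rw [← pow_add]; congr 2; ring
    _ ≤ 2 ^ (2 * (K * X)) * 2 ^ (2 * (K * X)) := by
        gcongr
        · norm_num
    _ = 2 ^ (K * 4 ^ (k + 1)) := by
        rw [← pow_add, pow_succ, ← hX]; congr 1; ring

theorem ratn : S_RAT := by
  intro P
  induction P using Polynomial.induction_on' with
  | add p q hp hq =>
    obtain ⟨D, m, hD, h⟩ := hp
    obtain ⟨D', m', hD', h'⟩ := hq
    refine ⟨D * D', m + m', Nat.mul_pos hD hD', fun k => ?_⟩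
    obtain ⟨A, hA⟩ := h k
    obtain ⟨A', hA'⟩ := h' k
    refine ⟨A * (D' * (1 + 4 ^ k) ^ m') + A' * (D * (1 + 4 ^ k) ^ m), ?_⟩
    rw [map_add, hA, hA']
    have e1 : (D : ℝ) ≠ 0 := by exact_mod_cast (by omega : D ≠ 0)
    have e2 : (D' : ℝ) ≠ 0 := by exact_mod_cast (by omega : D' ≠ 0)
    have e3 : (1 + 4 ^ k : ℝ) ≠ 0 := by positivity
    push_cast
    field_simp
    ring
  | monomial n a =>
    refine ⟨a.den, n, a.den_pos, fun k => ⟨a.num, ?_⟩⟩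
    rw [aeval_monomial]
    have e1 : (a.den : ℝ) ≠ 0 := by exact_mod_cast a.den_nz
    have e3 : (1 + 4 ^ k : ℝ) ≠ 0 := by positivity
    have e4 : (algebraMap ℚ ℝ) a = (a.num : ℝ) / a.den := by
      rw [eq_ratCast]
      exact Rat.cast_def a
    rw [e4]
    unfold r
    push_cast
    rw [div_pow, one_pow]
    field_simp

end Pool.Agent.Y967.EU.Ineq
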