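import Pool.Agent.Y967.EU.Stm

/-! The sphere orbit meets the ball iff `δ ≠ 0`. -/

set_option autoImplicit false

namespace Pool.Agent.Y967.EU.KeysAux

open Pool.Agent.Y967.EU Pool.Agent.H870R3

lemma arctan_le {u : ℝ} (hu : 0 ≤ u) : Real.arctan u ≤ u := by
  have h := Real.le_tan (Real.arctan_nonneg.2 hu) (Real.arctan_lt_pi_div_two u)
  rwa [Real.tan_arctan] at h

lemma le_arctan {u : ℝ} (h0 : 0 ≤ u) (h1 : u ≤ 1) : Real.pi / 4 * u ≤ Real.arctan u := by
  have hc : ConcaveOn ℝ (Set.Icc (0 : ℝ) 1) Real.arctan := by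
    apply AntitoneOn.concaveOn_of_deriv (convex_Icc 0 1) Real.continuous_arctan.continuousOn
      Real.differentiable_arctan.differentiableOn
    intro x hx y hy hxy
    rw [interior_Icc] at hx hy
    rw [Real.deriv_arctan]
    simp only
    apply one_div_le_one_div_of_le (by positivity)
    have := hx.1
    nlinarith [hx.1, hy.1]
  have h := hc.2 (show (0 : ℝ) ∈ Set.Icc (0 : ℝ) 1 from ⟨le_rfl, zero_le_one⟩)
    (show (1 : ℝ) ∈ Set.Icc (0 : ℝ) 1 from ⟨zero_le_one, le_rfl⟩)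
    (show 0 ≤ 1 - u by linarith) h0 (by ring)
  simp only [smul_eq_mul, mul_zero, mul_one, zero_add, Real.arctan_zero, Real.arctan_one] at h
  linarith

lemma cos_two_arctan (u : ℝ) : Real.cos (2 * Real.arctan u) = (1 - u ^ 2) / (1 + u ^ 2) := by
  rw [Real.cos_two_mul, Real.cos_sq_arctan]
  have : (0 : ℝ) < 1 + u ^ 2 := by positivity
  field_simp
  ring

lemma sin_two_arctan (u : ℝ) : Real.sin (2 * Real.arctan u) = 2 * u / (1 + u ^ 2) := by
  rw [Real.sin_two_mul, Real.sin_arctan, Real.cos_arctan]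
  have h : (0 : ℝ) < 1 + u ^ 2 := by positivity
  have h2 := Real.mul_self_sqrt h.le
  rw [mul_one_div, mul_div_assoc', div_div, h2]

theorem arc : S_ARC := by
  intro q hq
  have hq0 : (0 : ℝ) < q := by exact_mod_cast hq
  have hq1 : (1 : ℝ) ≤ q := by exact_mod_cast hq
  have hu0 : (0 : ℝ) ≤ 1 / q := by positivity
  have hu1 : (1 : ℝ) / q ≤ 1 := by rw [div_le_one hq0]; exact hq1
  refine ⟨2 * Real.arctan (1 / q), ?_, ?_, ?_, ?_⟩
  · have h := le_arctan hu0 hu1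
    have h2 : (q : ℝ) * (Real.pi / 4 * (1 / q)) ≤ q * Real.arctan (1 / q) := by gcongr
    have h3 : (q : ℝ) * (Real.pi / 4 * (1 / q)) = Real.pi / 4 := by field_simp
    linarith
  · have h := arctan_le hu0
    have h2 : q * Real.arctan (1 / q) ≤ (q : ℝ) * (1 / q) := by gcongr
    have h3 : (q : ℝ) * (1 / q) = 1 := by field_simp
    linarith
  · rw [cos_two_arctan]
    field_simp
  · rw [sin_two_arctan]
    field_simp

/-- the unit complex number with argument `x` -/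
noncomputable def ex (x : ℝ) : ℂ := Complex.exp (x * Complex.I)

lemma ex_re (x : ℝ) : (ex x).re = Real.cos x := Complex.exp_ofReal_mul_I_re x

lemma ex_im (x : ℝ) : (ex x).im = Real.sin x := Complex.exp_ofReal_mul_I_im x

lemma norm_ex (x : ℝ) : ‖ex x‖ = 1 := Complex.norm_exp_ofReal_mul_I x

lemma ex_add (x y : ℝ) : ex (x + y) = ex x * ex y := by
  unfold ex
  rw [← Complex.exp_add]
  push_cast
  ring_nf

lemma ex_zero : ex 0 = 1 := by simp [ex]

lemma ex_nat_mul (n : ℕ) (x : ℝ) : ex (n * x) = ex x ^ n := by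
  unfold ex
  rw [← Complex.exp_nat_mul]
  push_cast
  ring_nf

lemma ex_neg_mul (x : ℝ) : ex (-x) * ex x = 1 := by
  rw [← ex_add, neg_add_cancel, ex_zero]

lemma ex_two_pi (m : ℤ) : ex (2 * Real.pi * m) = 1 := by
  unfold ex
  rw [Complex.exp_eq_one_iff]
  exact ⟨m, by push_cast; ring⟩

lemma norm_pow_sub (w z : ℂ) (hw : ‖w‖ = 1) (hz : ‖z‖ = 1) (n : ℕ) :
    ‖w ^ n - z ^ n‖ ≤ n * ‖w - z‖ := by
  induction n with
  | zero => simp
  | succ n ih =>
    have h1 : w ^ (n + 1) - z ^ (n + 1) = w ^ n * (w - z) + (w ^ n - z ^ n) * z := by ring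
    rw [h1]
    calc ‖w ^ n * (w - z) + (w ^ n - z ^ n) * z‖
        ≤ ‖w ^ n * (w - z)‖ + ‖(w ^ n - z ^ n) * z‖ := norm_add_le _ _
      _ = ‖w - z‖ + ‖w ^ n - z ^ n‖ := by
        rw [norm_mul, norm_mul, norm_pow, hw, hz, one_pow, one_mul, mul_one]
      _ ≤ ((n + 1 : ℕ) : ℝ) * ‖w - z‖ := by
        push_cast
        linarith

lemma norm_ex_int (A : ℤ) (t : ℝ) : ‖ex (A * t) - 1‖ ≤ |(A : ℝ)| * ‖ex t - 1‖ := by
  obtain ⟨n, rfl | rfl⟩ := A.eq_nat_or_neg
  · have h := norm_pow_sub (ex t) 1 (norm_ex t) (by simp) n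
    rw [one_pow, ← ex_nat_mul] at h
    push_cast
    rw [abs_of_nonneg (Nat.cast_nonneg n)]
    exact h
  · have h := norm_pow_sub (ex t) 1 (norm_ex t) (by simp) n
    rw [one_pow, ← ex_nat_mul] at h
    push_cast
    rw [abs_neg, abs_of_nonneg (Nat.cast_nonneg n), neg_mul]
    have h2 : ex (-(n * t)) - 1 = - (ex (-(n * t)) * (ex (n * t) - 1)) := by
      linear_combination (ex_neg_mul (n * t))
    rw [h2, norm_neg, norm_mul, norm_ex, one_mul]
    exact h

lemma norm_ex_sub (x y : ℝ) : ‖ex x - ex y‖ ≤ |x - y| := by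
  have h1 : ex x - ex y = ex y * (ex (x - y) - 1) := by
    rw [mul_sub, ← ex_add, mul_one]
    congr 2
    ring
  rw [h1, norm_mul, norm_ex, one_mul]
  have h2 := Real.norm_exp_I_mul_ofReal_sub_one_le (x := x - y)
  rw [Real.norm_eq_abs] at h2
  unfold ex
  rw [mul_comm]
  exact h2

lemma sq_norm_sub (a c : ℝ) : ‖ex a - ex c‖ ^ 2 =
    (Real.cos a - Real.cos c) ^ 2 + (Real.sin a - Real.sin c) ^ 2 := by
  rw [Complex.sq_norm, Complex.normSq_apply, Complex.sub_re, Complex.sub_im, ex_re, ex_im, ex_re,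
    ex_im]
  ring

lemma dist_formula (k q : ℕ) (M : ℕ) (hq : 2 ^ (k + 2) ≤ q) (a c θ : ℝ)
    (hcos : Real.cos θ = ((q : ℝ) ^ 2 - 1) / ((q : ℝ) ^ 2 + 1))
    (hsin : Real.sin θ = 2 * q / ((q : ℝ) ^ 2 + 1)) :
    dist (rot a c (pt4 (pS k))) (pt4 (VS M q k).1) ^ 2 =
      ‖ex a - 1‖ ^ 2 * (1 / (1 + 4 ^ k)) + ‖ex c - ex θ‖ ^ 2 * (4 ^ k / (1 + 4 ^ k)) := by
  have hq1 : 1 ≤ q := le_trans Nat.one_le_two_pow hq
  have hq2 : 1 ≤ q ^ 2 := Nat.one_le_pow _ _ hq1
  have h24 : (2 : ℝ) ^ k * 2 ^ k = 4 ^ k := by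
    rw [← mul_pow]; norm_num
  have h24n : (2 : ℕ) ^ k * 2 ^ k = 4 ^ k := by
    rw [← mul_pow]; norm_num
  have hsub : 2 * q * 4 ^ k ≤ (q ^ 2 - 1) * 2 ^ k := by
    have h1 : 2 * q * 2 ^ k ≤ q ^ 2 - 1 := by
      have h2 : 4 * 2 ^ k ≤ q := by
        calc 4 * 2 ^ k = 2 ^ (k + 2) := by rw [pow_add]; ring
          _ ≤ q := hq
      have h3 : 1 ≤ 2 ^ k := Nat.one_le_two_pow
      have h4 : q * (4 * 2 ^ k) ≤ q * q := Nat.mul_le_mul_left q h2
      have h5 : q ^ 2 = q * q := sq q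
      have h6 : 1 ≤ q * 2 ^ k := Nat.mul_pos hq1 h3
      have h7 : q * (4 * 2 ^ k) = 4 * (q * 2 ^ k) := by ring
      have h8 : 2 * q * 2 ^ k = 2 * (q * 2 ^ k) := by ring
      omega
    calc 2 * q * 4 ^ k = 2 * q * 2 ^ k * 2 ^ k := by rw [← h24n]; ring
      _ ≤ (q ^ 2 - 1) * 2 ^ k := Nat.mul_le_mul_right _ h1
  have c2 : (((q ^ 2 - 1) * 2 ^ k - 2 * q * 4 ^ k : ℕ) : ℝ) =
      ((q : ℝ) ^ 2 - 1) * 2 ^ k - 2 * q * 4 ^ k := by
    rw [Nat.cast_sub hsub]
    push_cast [Nat.cast_sub hq2]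
    ring
  have c3 : (((q ^ 2 - 1) * 4 ^ k + 2 * q * 2 ^ k : ℕ) : ℝ) =
      ((q : ℝ) ^ 2 - 1) * 4 ^ k + 2 * q * 2 ^ k := by
    push_cast [Nat.cast_sub hq2]
    ring
  rw [EuclideanSpace.dist_eq, Real.sq_sqrt (by positivity), Fin.sum_univ_four]
  have e0 := sq_norm_sub a 0
  rw [ex_zero, Real.cos_zero, Real.sin_zero] at e0
  rw [e0, sq_norm_sub c θ]
  simp only [Real.dist_eq, sq_abs]
  have hN : (0 : ℝ) < 1 + 4 ^ k := by positivity
  have hQ : (0 : ℝ) < (q : ℝ) ^ 2 + 1 := by positivity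
  have f0 : rot a c (pt4 (pS k)) 0 - pt4 (VS M q k).1 0 =
      ((Real.cos a - 1) - Real.sin a * 2 ^ k) / (1 + 4 ^ k) := by
    simp only [rot, pt4, pS, VS, rat]
    push_cast
    simp
    field_simp
    ring
  have f1 : rot a c (pt4 (pS k)) 1 - pt4 (VS M q k).1 1 =
      ((Real.cos a - 1) * 2 ^ k + Real.sin a) / (1 + 4 ^ k) := by
    simp only [rot, pt4, pS, VS, rat]
    push_cast
    simp
    field_simp
    ring
  have f2 : rot a c (pt4 (pS k)) 2 - pt4 (VS M q k).1 2 =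
      2 ^ k * ((Real.cos c - Real.cos θ) - (Real.sin c - Real.sin θ) * 2 ^ k) / (1 + 4 ^ k) := by
    simp only [rot, pt4, pS, VS, rat]
    rw [c2, hcos, hsin]
    push_cast
    try simp
    field_simp
    rw [← h24]
    ring
  have f3 : rot a c (pt4 (pS k)) 3 - pt4 (VS M q k).1 3 =
      2 ^ k * ((Real.cos c - Real.cos θ) * 2 ^ k + (Real.sin c - Real.sin θ)) / (1 + 4 ^ k) := by
    simp only [rot, pt4, pS, VS, rat]
    rw [c3, hcos, hsin]
    push_cast
    try simp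
    field_simp
    rw [← h24]
    ring
  rw [f0, f1, f2, f3]
  field_simp
  rw [← h24]
  ring

theorem keys (hstep : S_STEP) : S_KEYS := by
  intro k q M A δ hq hM hδ
  have hq1 : 1 ≤ q := le_trans Nat.one_le_two_pow hq
  have hq0 : (0 : ℝ) < q := by exact_mod_cast hq1
  have hM0 : (0 : ℝ) ≤ M := Nat.cast_nonneg M
  obtain ⟨θ, hθ1, hθ2, hcos, hsin⟩ := arc q hq1
  have h24 : (2 : ℝ) ^ k * 2 ^ k = 4 ^ k := by
    rw [← mul_pow]; norm_num
  have h1k : (1 : ℝ) ≤ 2 ^ k := one_le_pow₀ (by norm_num)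
  have h1k4 : (1 : ℝ) ≤ 4 ^ k := one_le_pow₀ (by norm_num)
  set η : ℝ := 1 / (8 * (M + 2) * q * 2 ^ k) with hη
  have hη0 : 0 < η := by positivity
  have hrad : rat (VS M q k).2 = η := by
    simp only [VS, rat, hη]
    push_cast
    ring
  constructor
  · rintro ⟨t, -, ht⟩ hδ0
    rw [hδ0, add_zero] at hM ht
    rw [Metric.mem_ball, hrad] at ht
    have hd := dist_formula k q M hq t ((A : ℝ) / q * t) θ hcos hsin
    have hlt : dist (rot t ((A : ℝ) / q * t) (pt4 (pS k))) (pt4 (VS M q k).1) ^ 2 < η ^ 2 :=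
      pow_lt_pow_left₀ ht dist_nonneg (by norm_num)
    rw [hd] at hlt
    set X := ‖ex t - 1‖ with hX
    set Y := ‖ex ((A : ℝ) / q * t) - ex θ‖ with hY
    have hX0 : 0 ≤ X := norm_nonneg _
    have hY0 : 0 ≤ Y := norm_nonneg _
    have hN : (0 : ℝ) < 1 + 4 ^ k := by positivity
    have hsum : X ^ 2 + Y ^ 2 * 4 ^ k < η ^ 2 * (1 + 4 ^ k) := by
      have h1 : X ^ 2 * (1 / (1 + 4 ^ k)) + Y ^ 2 * (4 ^ k / (1 + 4 ^ k)) =
          (X ^ 2 + Y ^ 2 * 4 ^ k) / (1 + 4 ^ k) := by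
        field_simp
      rw [h1, div_lt_iff₀ hN] at hlt
      exact hlt
    have hXb : X ≤ η * (2 * 2 ^ k) := by
      apply le_of_sq_le_sq _ (by positivity)
      have h2 : 0 ≤ Y ^ 2 * 4 ^ k := by positivity
      have h3 : (η * (2 * 2 ^ k)) ^ 2 = η ^ 2 * (4 * 4 ^ k) := by
        rw [← h24]; ring
      rw [h3]
      have h4 : η ^ 2 * (1 + 4 ^ k) ≤ η ^ 2 * (4 * 4 ^ k) := by
        gcongr
        linarith
      linarith
    have hYb : Y ≤ 3 / 2 * η := by
      apply le_of_sq_le_sq _ (by positivity)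
      have h2 : Y ^ 2 * 4 ^ k < η ^ 2 * (2 * 4 ^ k) := by
        have h4 : η ^ 2 * (1 + 4 ^ k) ≤ η ^ 2 * (2 * 4 ^ k) := by
          gcongr
          linarith
        have h5 : 0 ≤ X ^ 2 := by positivity
        linarith
      have h3 : Y ^ 2 < 2 * η ^ 2 := by
        by_contra hcon
        push Not at hcon
        have : 2 * η ^ 2 * 4 ^ k ≤ Y ^ 2 * 4 ^ k := by gcongr
        linarith
      have h6 : (0 : ℝ) < η ^ 2 := by positivity
      nlinarith
    -- the two powers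
    have hAM : |(A : ℝ)| ≤ q * M := by
      rw [abs_div, abs_of_pos hq0, div_le_iff₀ hq0] at hM
      linarith
    have p1 : ‖ex (A * t) - 1‖ ≤ (q * M) * (η * (2 * 2 ^ k)) :=
      (norm_ex_int A t).trans (mul_le_mul hAM hXb hX0 (by positivity))
    have p2 : ‖ex (A * t) - ex (q * θ)‖ ≤ q * (3 / 2 * η) := by
      have h1 := norm_pow_sub (ex ((A : ℝ) / q * t)) (ex θ) (norm_ex _) (norm_ex _) q
      rw [← ex_nat_mul, ← ex_nat_mul] at h1
      have h2 : (q : ℝ) * ((A : ℝ) / q * t) = A * t := by field_simp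
      rw [h2] at h1
      exact h1.trans (by gcongr)
    have p3 : ‖1 - ex (q * θ)‖ ≤ (q * M) * (η * (2 * 2 ^ k)) + q * (3 / 2 * η) := by
      have h1 : 1 - ex (q * θ) = -(ex (A * t) - 1) + (ex (A * t) - ex (q * θ)) := by ring
      rw [h1]
      refine (norm_add_le _ _).trans ?_
      rw [norm_neg]
      exact add_le_add p1 p2
    have p4 : (q * M) * (η * (2 * 2 ^ k)) ≤ 1 / 4 := by
      have h1 : (q * M) * (η * (2 * 2 ^ k)) = M / (4 * (M + 2)) := by
        rw [hη]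
        field_simp
        ring
      rw [h1, div_le_div_iff₀ (by positivity) (by norm_num)]
      linarith
    have p5 : q * (3 / 2 * η) ≤ 1 / 4 := by
      have h1 : q * (3 / 2 * η) = 3 / (16 * (M + 2) * 2 ^ k) := by
        rw [hη]
        field_simp
        norm_num
      rw [h1, div_le_div_iff₀ (by positivity) (by norm_num)]
      nlinarith
    have p6 : 1 ≤ ‖1 - ex (q * θ)‖ := by
      have h1 := Complex.re_le_norm (1 - ex (q * θ))
      rw [Complex.sub_re, Complex.one_re, ex_re] at h1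
      have h2 : Real.cos (q * θ) ≤ 0 := by
        apply Real.cos_nonpos_of_pi_div_two_le_of_le hθ1
        linarith [Real.pi_gt_three]
      linarith
    linarith
  · intro hδ0
    have hθL : (q : ℝ) * δ ≠ 0 := mul_ne_zero hq0.ne' hδ0
    have habs : |(q : ℝ) * δ| = q * |δ| := by rw [abs_mul, abs_of_pos hq0]
    have hδp : 0 < |δ| := abs_pos.2 hδ0
    have hqδ : 0 < q * |δ| := by positivity
    obtain ⟨j, m, h1, h2⟩ := hstep (θ / (2 * Real.pi)) (1.1 * (q * |δ|)) (q * δ) hθL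
      (by rw [habs]; linarith)
    have hpi := Real.pi_pos
    set φ : ℝ := 2 * Real.pi * (j * (q * δ) + m) with hφ
    have h3 : θ < φ := by
      rw [div_lt_iff₀ (by positivity)] at h1
      rw [hφ]
      linarith
    have h4 : φ < θ + 2 * Real.pi * (1.1 * (q * |δ|)) := by
      have h5 := mul_lt_mul_of_pos_left h2 (show 0 < 2 * Real.pi by positivity)
      have h6 : 2 * Real.pi * (θ / (2 * Real.pi) + 1.1 * (q * |δ|)) =
          θ + 2 * Real.pi * (1.1 * (q * |δ|)) := by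
        field_simp
      rw [h6] at h5
      exact h5
    set t : ℝ := 2 * Real.pi * (q * j) with ht
    have ea : ex t = 1 := by
      have := ex_two_pi ((q : ℤ) * j)
      push_cast at this
      rw [ht]
      exact this
    have ec : ex (((A : ℝ) / q + δ) * t) = ex φ := by
      have h5 : ((A : ℝ) / q + δ) * t = φ + 2 * Real.pi * ((A * j - m : ℤ) : ℝ) := by
        rw [ht, hφ]
        push_cast
        field_simp
        ring
      rw [h5, ex_add, ex_two_pi, mul_one]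
    refine ⟨t, by positivity, ?_⟩
    rw [Metric.mem_ball, hrad]
    have hd := dist_formula k q M hq t (((A : ℝ) / q + δ) * t) θ hcos hsin
    rw [ea, ec, sub_self, norm_zero] at hd
    have h5 : ‖ex φ - ex θ‖ < η := by
      refine lt_of_le_of_lt (norm_ex_sub φ θ) ?_
      rw [abs_of_pos (by linarith)]
      have h6 : φ - θ < 7 * (q * |δ|) := by
        have h7 : 2 * Real.pi * (1.1 * (q * |δ|)) ≤ 7 * (q * |δ|) := by
          have h8 : 2 * Real.pi * 1.1 ≤ 7 := by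
            linarith [Real.pi_lt_d2]
          have := mul_le_mul_of_nonneg_right h8 hqδ.le
          linarith
        linarith
      refine lt_trans h6 ?_
      rw [hη, lt_div_iff₀ (by positivity)]
      have h9 : 7 * (q * |δ|) * (8 * (M + 2) * q * 2 ^ k) =
          56 * ((M + 2) * 2 ^ k * (q : ℝ) ^ 2 * |δ|) := by ring
      rw [h9]
      have h10 : 0 < (M + 2) * 2 ^ k * (q : ℝ) ^ 2 * |δ| := by positivity
      linarith
    have h6 : 0 ≤ ‖ex φ - ex θ‖ := norm_nonneg _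
    have hN : (0 : ℝ) < 1 + 4 ^ k := by positivity
    apply lt_of_pow_lt_pow_left₀ 2 hη0.le
    rw [hd]
    have h7 : (4 : ℝ) ^ k / (1 + 4 ^ k) ≤ 1 := by
      rw [div_le_one hN]; linarith
    calc (0 : ℝ) ^ 2 * (1 / (1 + 4 ^ k)) + ‖ex φ - ex θ‖ ^ 2 * (4 ^ k / (1 + 4 ^ k))
        ≤ 0 + ‖ex φ - ex θ‖ ^ 2 * 1 := by
          gcongr
          simp
      _ = ‖ex φ - ex θ‖ ^ 2 := by ring
      _ < η ^ 2 := pow_lt_pow_left₀ h5 h6 (by norm_num)

end Pool.Agent.Y967.EU.KeysAux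

namespace Pool.Agent.Y967.EU

theorem arc : S_ARC := KeysAux.arc

theorem keys : S_STEP → S_KEYS := KeysAux.keys

end Pool.Agent.Y967.EU
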