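import Pool.Agent.Y967.EU.Stm

/-! The torus orbit meets the box iff `δ ≠ 0`. -/

set_option autoImplicit false

namespace Pool.Agent.Y967.EU.KeytAux

open Pool.Agent.Y967.EU Pool.Agent.H870R3

lemma step_pos (a L θ : ℝ) (hθ : 0 < θ) (hL : θ < L) :
    ∃ (j : ℕ) (m : ℤ), a < j * θ + m ∧ j * θ + m < a + L := by
  refine ⟨⌊(a - ⌊a⌋) / θ⌋₊ + 1, ⌊a⌋, ?_, ?_⟩
  · have h1 := Nat.lt_floor_add_one ((a - ⌊a⌋) / θ)
    rw [div_lt_iff₀ hθ] at h1
    push_cast
    linarith
  · have h0 : 0 ≤ (a - ⌊a⌋) / θ := div_nonneg (by linarith [Int.floor_le a]) hθ.le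
    have h1 := Nat.floor_le h0
    rw [le_div_iff₀ hθ] at h1
    push_cast
    linarith

theorem step : S_STEP := by
  intro a L θ hθ hL
  rcases lt_or_gt_of_ne hθ with h | h
  · rw [abs_of_neg h] at hL
    obtain ⟨j, m, h1, h2⟩ := step_pos (-a - L) L (-θ) (by linarith) hL
    exact ⟨j, -m, by push_cast; linarith, by push_cast; linarith⟩
  · rw [abs_of_pos h] at hL
    exact step_pos a L θ h hL

/-- integral curves of a shear field -/
lemma shear_curve (F : ℝ → ℝ) (x : E3) {γ : ℝ → E3} (h0 : γ 0 = x)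
    (hγ : ∀ t, HasDerivAt γ (shearF F (γ t)) t) (t : ℝ) :
    γ t 1 = x 1 + t ∧ γ t 2 = x 2 + F (x 0) * t := by
  have hcoord : ∀ (i : Fin 3) (t : ℝ), HasDerivAt (fun t => γ t i) (shearF F (γ t) i) t := by
    intro i t
    exact ((EuclideanSpace.proj i : E3 →L[ℝ] ℝ).hasFDerivAt).comp_hasDerivAt t (hγ t)
  have hc0 : ∀ t, γ t 0 = x 0 := by
    intro t
    have h : ∀ s, HasDerivAt (fun t => γ t 0) 0 s := by
      intro s
      have := hcoord 0 s
      simpa [shearF, ee] using this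
    have hd : Differentiable ℝ (fun t => γ t 0) := fun s => (h s).differentiableAt
    have := is_const_of_deriv_eq_zero hd (fun s => (h s).deriv) t 0
    simp only at this
    rw [this, h0]
  have hlin : ∀ (i : Fin 3) (v : ℝ), (∀ s, shearF F (γ s) i = v) → γ t i = x i + v * t := by
    intro i v hv
    have h : ∀ s, HasDerivAt (fun t => γ t i - v * t) 0 s := by
      intro s
      have h1 := (hcoord i s).fun_sub ((hasDerivAt_id' s).const_mul v)
      simpa [hv s] using h1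
    have hd : Differentiable ℝ (fun t => γ t i - v * t) := fun s => (h s).differentiableAt
    have := is_const_of_deriv_eq_zero hd (fun s => (h s).deriv) t 0
    simp only at this
    rw [h0] at this
    linarith
  constructor
  · have := hlin 1 1 (fun s => by simp [shearF, ee])
    linarith
  · exact hlin 2 (F (x 0)) (fun s => by simp [shearF, ee, hc0 s])

lemma shear_exists (F : ℝ → ℝ) (x : E3) : ∃ γ : ℝ → E3, γ 0 = x ∧
    (∀ t, HasDerivAt γ (shearF F (γ t)) t) ∧ ∀ t, γ t 0 = x 0 := by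
  set v : E3 := ee 1 + F (x 0) • ee 2 with hv
  have hγ : ∀ t : ℝ, HasDerivAt (fun t : ℝ => x + t • v) v t := by
    intro t
    have := ((hasDerivAt_id t).smul_const v).const_add x
    simpa using this
  have hv0 : v 0 = 0 := by simp [hv, ee]
  have h0 : ∀ t : ℝ, (x + t • v) 0 = x 0 := by
    intro t
    change x 0 + t * v 0 = x 0
    rw [hv0]; ring
  refine ⟨fun t => x + t • v, by simp, fun t => ?_, h0⟩
  have e : shearF F (x + t • v) = v := by
    unfold shearF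
    rw [h0 t]
  rw [e]
  exact hγ t

lemma x0_mem (k : ℕ) : 0 < (ptT (pT k)) 0 ∧ (ptT (pT k)) 0 < 1 := by
  have h1 : (ptT (pT k)) 0 = Real.arctan (1 / 2 ^ k) / Real.pi := by
    simp [ptT, pT, rat]
  rw [h1]
  constructor
  · apply div_pos _ Real.pi_pos
    rw [Real.arctan_pos]
    positivity
  · rw [div_lt_one Real.pi_pos]
    linarith [Real.arctan_lt_pi_div_two (1 / 2 ^ k), Real.pi_pos]

lemma x1_eq (k : ℕ) : (ptT (pT k)) 1 = 0 := by simp [ptT, pT, rat]

lemma x2_eq (k : ℕ) : (ptT (pT k)) 2 = 0 := by simp [ptT, pT, rat]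

lemma mem_box (M q : ℕ) (hq : 1 ≤ q) (y : E3) : y ∈ box (VT M q).1 (VT M q).2 ↔
    (0 < y 0 ∧ y 0 < 1) ∧ (1 - 1 / (8 * q * (M + 1)) < y 1 ∧ y 1 < 1 + 1 / (8 * q * (M + 1))) ∧
      (1 / (4 * q) < y 2 ∧ y 2 < 3 / (4 * q) : Prop) := by
  have hq0 : (0 : ℝ) < q := by exact_mod_cast hq
  have hd : 1 ≤ 8 * q * (M + 1) := by nlinarith
  have e1 : ((8 * q * (M + 1) - 1 : ℕ) : ℝ) / ((8 * q * (M + 1) : ℕ) : ℝ) =
      1 - 1 / (8 * q * (M + 1)) := by
    rw [Nat.cast_sub hd]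
    push_cast
    field_simp
  have e2 : ((8 * q * (M + 1) + 1 : ℕ) : ℝ) / ((8 * q * (M + 1) : ℕ) : ℝ) =
      1 + 1 / (8 * q * (M + 1)) := by
    push_cast
    field_simp
  simp only [box, VT, rat, Set.mem_ofPred_eq]
  rw [e1, e2]
  push_cast
  norm_num

theorem keyt : S_KEYT := by
  intro k q M A δ F hq hM hδ hF
  have hq0 : (0 : ℝ) < q := by exact_mod_cast hq
  have hM0 : (0 : ℝ) ≤ M := Nat.cast_nonneg M
  set x := ptT (pT k) with hx
  have hx0 := x0_mem k
  rw [← hx] at hx0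
  have hx1 : x 1 = 0 := x1_eq k
  have hx2 : x 2 = 0 := x2_eq k
  constructor
  · rintro ⟨γ, hγ0, hγ, t, ht, kk, hk⟩ hδ0
    obtain ⟨c1, c2⟩ := shear_curve F x hγ0 hγ t
    rw [hx1, zero_add] at c1
    rw [hx2, zero_add, hF, hδ0, add_zero] at c2
    rw [hδ0, add_zero] at hM
    rw [mem_box M q hq] at hk
    obtain ⟨-, ⟨h3, h4⟩, h5, h6⟩ := hk
    have e1 : (γ t + lat kk) 1 = t + (kk 1 : ℝ) := by
      change γ t 1 + (kk 1 : ℝ) = _
      rw [c1]
    have e2 : (γ t + lat kk) 2 = A / q * t + (kk 2 : ℝ) := by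
      change γ t 2 + (kk 2 : ℝ) = _
      rw [c2]
    rw [e1] at h3 h4
    rw [e2] at h5 h6
    have hAM : |(A : ℝ)| ≤ q * M := by
      rw [abs_div, abs_of_pos hq0, div_le_iff₀ hq0] at hM
      linarith
    set ε := t + (kk 1 : ℝ) - 1 with hε
    have hεb : |ε| < 1 / (8 * q * (M + 1)) := by
      rw [abs_lt]
      constructor <;> linarith
    have hAε : |(A : ℝ) * ε| < 1 / 8 := by
      rw [abs_mul]
      calc |(A : ℝ)| * |ε| ≤ (q * M) * (1 / (8 * q * (M + 1))) := by gcongr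
        _ = M / (8 * (M + 1)) := by field_simp
        _ < 1 / 8 := by
          rw [div_lt_div_iff₀ (by positivity) (by norm_num)]
          linarith
    rw [abs_lt] at hAε
    -- the integer
    have h7 : (1 : ℝ) / 4 < A * t + q * kk 2 := by
      rw [div_lt_iff₀ (by positivity)] at h5
      have : (A / q * t + (kk 2 : ℝ)) * (4 * q) = 4 * (A * t + q * kk 2) := by
        field_simp
      linarith
    have h8 : A * t + q * kk 2 < (3 : ℝ) / 4 := by
      rw [lt_div_iff₀ (by positivity)] at h6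
      have : (A / q * t + (kk 2 : ℝ)) * (4 * q) = 4 * (A * t + q * kk 2) := by
        field_simp
      linarith
    have h9 : A * t + q * kk 2 = ((A * (1 - kk 1) + q * kk 2 : ℤ) : ℝ) + A * ε := by
      rw [hε]
      push_cast
      ring
    rw [h9] at h7 h8
    have h10 : (0 : ℝ) < ((A * (1 - kk 1) + q * kk 2 : ℤ) : ℝ) := by linarith [hAε.2]
    have h11 : ((A * (1 - kk 1) + q * kk 2 : ℤ) : ℝ) < 1 := by linarith [hAε.1]
    have h12 : (0 : ℤ) < A * (1 - kk 1) + q * kk 2 := by exact_mod_cast h10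
    have h13 : A * (1 - kk 1) + q * kk 2 < (1 : ℤ) := by exact_mod_cast h11
    omega
  · intro hδ0
    obtain ⟨γ, hγ0, hγ, hc0⟩ := shear_exists F x
    have hθ : (q : ℝ) * δ ≠ 0 := mul_ne_zero hq0.ne' hδ0
    have hsmall : |(q : ℝ) * δ| < 1 / (2 * q) := by
      rw [lt_div_iff₀ (by positivity), abs_mul, abs_of_pos hq0]
      have h1 : (1 : ℝ) ≤ 2 ^ k := one_le_pow₀ (by norm_num)
      have h2 : 0 ≤ (q : ℝ) ^ 2 * |δ| := by positivity
      have h3 : (2 : ℝ) ≤ (M : ℝ) + 2 := by linarith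
      have h4 : (2 : ℝ) * 1 ≤ ((M : ℝ) + 2) * 2 ^ k := by gcongr
      have h5 : (2 : ℝ) * ((q : ℝ) ^ 2 * |δ|) ≤ ((M : ℝ) + 2) * 2 ^ k * ((q : ℝ) ^ 2 * |δ|) := by
        apply mul_le_mul_of_nonneg_right _ h2
        linarith
      nlinarith
    obtain ⟨j, m, h1, h2⟩ := step (1 / (4 * q)) (1 / (2 * q)) (q * δ) hθ hsmall
    obtain ⟨c1, c2⟩ := shear_curve F x hγ0 hγ ((q : ℝ) * j)
    rw [hx1, zero_add] at c1
    rw [hx2, zero_add, hF] at c2
    refine ⟨γ, hγ0, hγ, (q : ℝ) * j, by positivity, ![0, 1 - q * j, m - A * j], ?_⟩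
    rw [mem_box M q hq]
    have e0 : (γ ((q : ℝ) * j) + lat ![0, 1 - q * j, m - A * j]) 0 = x 0 := by
      change γ ((q : ℝ) * j) 0 + ((![0, 1 - q * j, m - A * j] : Fin 3 → ℤ) 0 : ℝ) = x 0
      rw [hc0]; simp
    have e1 : (γ ((q : ℝ) * j) + lat ![0, 1 - q * j, m - A * j]) 1 = 1 := by
      change γ ((q : ℝ) * j) 1 + ((![0, 1 - q * j, m - A * j] : Fin 3 → ℤ) 1 : ℝ) = 1
      rw [c1]; simp
    have e2 : (γ ((q : ℝ) * j) + lat ![0, 1 - q * j, m - A * j]) 2 = j * (q * δ) + m := by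
      change γ ((q : ℝ) * j) 2 + ((![0, 1 - q * j, m - A * j] : Fin 3 → ℤ) 2 : ℝ) = _
      rw [c2]
      simp
      field_simp
      ring
    rw [e0, e1, e2]
    have hpos : (0 : ℝ) < 1 / (8 * q * (M + 1)) := by positivity
    have h3 : (1 : ℝ) / (4 * q) + 1 / (2 * q) = 3 / (4 * q) := by
      field_simp
      norm_num
    rw [h3] at h2
    exact ⟨hx0, ⟨by linarith, by linarith⟩, h1, h2⟩

end Pool.Agent.Y967.EU.KeytAux

namespace Pool.Agent.Y967.EU

theorem step : S_STEP := KeytAux.step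

theorem keyt : S_KEYT := KeytAux.keyt

end Pool.Agent.Y967.EU
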