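import Pool.Agent.Y967.EU.Ana

/-!
# EU-VAL: the values of the series at the points `r k` (by helper469)
-/

set_option autoImplicit false

open Finset

namespace Pool.Agent.Y967.EU.Val

open Pool.Agent.Y967.EU.Ana

theorem r_inj {j k : ℕ} (h : r j = r k) : j = k := by
  unfold r at h
  have h1 : (0 : ℝ) < 1 + 4 ^ j := by positivity
  have h2 : (0 : ℝ) < 1 + 4 ^ k := by positivity
  rw [div_eq_div_iff h1.ne' h2.ne', one_mul, one_mul, add_right_inj] at h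
  exact (pow_right_injective₀ (by norm_num : (0 : ℝ) < 4) (by norm_num) h).symm

theorem abs_sub_r (k j : ℕ) : |r k - r j| ≤ 1 := by
  rw [abs_le]
  exact ⟨by linarith [r_pos k, r_le j], by linarith [r_pos j, r_le k]⟩

/-- The terms with `k ≤ t`. -/
theorem trmR_ge (b : ℕ → ℕ → Bool) (K : ℕ) {t k : ℕ} (h : k ≤ t) :
    trmR b K t (r k) = (1 / 2) ^ (K * 4 ^ (t + 1)) *
      (if b k t = true then ∏ j ∈ (range (t + 1)).erase k, (r k - r j) else 0) := by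
  unfold trmR
  rw [sum_eq_single k]
  · intro n _ hnk
    have h1 : ∏ j ∈ (range (t + 1)).erase n, (r k - r j) = 0 :=
      prod_eq_zero (i := k) (mem_erase.2 ⟨hnk.symm, mem_range.2 (by omega)⟩) (sub_self _)
    rw [h1, ite_self]
  · intro h2
    exact absurd (mem_range.2 (by omega)) h2

theorem trmR_ge_zero {b : ℕ → ℕ → Bool} {K t k : ℕ} (h : k ≤ t) (hb : ¬ b k t = true) :
    trmR b K t (r k) = 0 := by
  rw [trmR_ge b K h, if_neg hb, mul_zero]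

theorem trmR_ge_ne {b : ℕ → ℕ → Bool} {K t k : ℕ} (h : k ≤ t) (hb : b k t = true) :
    trmR b K t (r k) ≠ 0 := by
  rw [trmR_ge b K h, if_pos hb]
  refine mul_ne_zero (by positivity) (prod_ne_zero_iff.2 fun j hj => ?_)
  intro h0
  exact (mem_erase.1 hj).1 (r_inj (sub_eq_zero.1 h0)).symm

theorem trmR_ge_abs {b : ℕ → ℕ → Bool} {K t k : ℕ} (h : k ≤ t) :
    |trmR b K t (r k)| ≤ (1 / 2) ^ (K * 4 ^ (k + 1)) := by
  rw [trmR_ge b K h, abs_mul]
  have h1 : |(if b k t = true then ∏ j ∈ (range (t + 1)).erase k, (r k - r j) else 0)| ≤ 1 := by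
    split_ifs
    · rw [abs_prod]
      exact prod_le_one (fun _ _ => abs_nonneg _) fun j _ => abs_sub_r k j
    · rw [abs_zero]
      exact zero_le_one
  have h2 : |(1 / 2 : ℝ) ^ (K * 4 ^ (t + 1))| ≤ (1 / 2) ^ (K * 4 ^ (k + 1)) := by
    rw [abs_of_nonneg (by positivity)]
    refine pow_le_pow_of_le_one (by norm_num) (by norm_num) ?_
    exact Nat.mul_le_mul_left K (Nat.pow_le_pow_right (by norm_num) (by omega))
  calc _ ≤ (1 / 2 : ℝ) ^ (K * 4 ^ (k + 1)) * 1 :=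
        mul_le_mul h2 h1 (abs_nonneg _) (by positivity)
    _ = _ := mul_one _

/-- The integers in the reals. -/
def Zr : Subring ℝ := (Int.castRingHom ℝ).range

theorem nat_mem_Zr (n : ℕ) : (n : ℝ) ∈ Zr := ⟨n, by simp⟩

theorem key1 (k j : ℕ) :
    (r k - r j) * ((1 + 4 ^ k) * (1 + 4 ^ j)) = ((4 ^ j - 4 ^ k : ℤ) : ℝ) := by
  unfold r
  have h1 : (1 + 4 ^ k : ℝ) ≠ 0 := by positivity
  have h2 : (1 + 4 ^ j : ℝ) ≠ 0 := by positivity
  push_cast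
  field_simp
  ring

theorem prod_mem_Zr {k : ℕ} {S : Finset ℕ} (hS : S ⊆ range k) :
    (∏ j ∈ S, (r k - r j)) * ((1 + 4 ^ k) ^ k * ∏ j ∈ range k, (1 + 4 ^ j : ℝ)) ∈ Zr := by
  have h1 : ((1 + 4 ^ k : ℝ) ^ k * ∏ j ∈ range k, (1 + 4 ^ j : ℝ)) =
      ∏ j ∈ range k, ((1 + 4 ^ k : ℝ) * (1 + 4 ^ j)) := by
    rw [prod_mul_distrib, prod_const, card_range]
  have h2 : (∏ j ∈ S, (r k - r j)) * ∏ j ∈ S, ((1 + 4 ^ k : ℝ) * (1 + 4 ^ j)) ∈ Zr := by
    rw [← prod_mul_distrib]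
    refine prod_mem fun j _ => ?_
    rw [key1]
    exact ⟨_, rfl⟩
  have h3 : ∏ j ∈ range k \ S, ((1 + 4 ^ k : ℝ) * (1 + 4 ^ j)) ∈ Zr := by
    refine prod_mem fun j _ => ?_
    have := nat_mem_Zr ((1 + 4 ^ k) * (1 + 4 ^ j))
    push_cast at this
    exact this
  rw [h1, ← prod_sdiff hS, mul_left_comm]
  exact mul_mem h3 h2

theorem trmR_lt (b : ℕ → ℕ → Bool) (K : ℕ) {t k : ℕ} (h : t < k) :
    trmR b K t (r k) * (2 ^ (K * 4 ^ k) * ((1 + 4 ^ k) ^ k * ∏ j ∈ range k, (1 + 4 ^ j : ℝ))) ∈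
      Zr := by
  have h1 : (1 / 2 : ℝ) ^ (K * 4 ^ (t + 1)) * 2 ^ (K * 4 ^ k) ∈ Zr := by
    have h2 : K * 4 ^ (t + 1) ≤ K * 4 ^ k :=
      Nat.mul_le_mul_left K (Nat.pow_le_pow_right (by norm_num) (by omega))
    obtain ⟨c, hc⟩ := Nat.exists_eq_add_of_le h2
    have h3 : (1 / 2 : ℝ) ^ (K * 4 ^ (t + 1)) * 2 ^ (K * 4 ^ k) = ((2 ^ c : ℕ) : ℝ) := by
      rw [hc, pow_add (2 : ℝ), ← mul_assoc, ← mul_pow]
      norm_num
    rw [h3]
    exact nat_mem_Zr _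
  have h4 : (∑ n ∈ range (t + 1),
      if b n t = true then ∏ j ∈ (range (t + 1)).erase n, (r k - r j) else 0) *
        ((1 + 4 ^ k) ^ k * ∏ j ∈ range k, (1 + 4 ^ j : ℝ)) ∈ Zr := by
    rw [sum_mul]
    refine sum_mem fun n _ => ?_
    split_ifs
    · refine prod_mem_Zr fun j hj => ?_
      have := mem_range.1 (mem_erase.1 hj).2
      exact mem_range.2 (by omega)
    · rw [zero_mul]
      exact zero_mem _
  have h5 := mul_mem h1 h4
  unfold trmR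
  convert h5 using 1
  ring

theorem Q_cast (K k : ℕ) : ((Q 1 0 K k : ℕ) : ℝ) =
    2 ^ (K * 4 ^ k) * ((1 + 4 ^ k) ^ k * ∏ j ∈ range k, (1 + 4 ^ j : ℝ)) := by
  unfold Q
  push_cast
  ring

theorem Q_pos (K k : ℕ) : (0 : ℝ) < ((Q 1 0 K k : ℕ) : ℝ) := by
  rw [Q_cast]
  have : (0 : ℝ) < ∏ j ∈ range k, (1 + 4 ^ j : ℝ) := prod_pos fun j _ => by positivity
  positivity

theorem sum_lt (b : ℕ → ℕ → Bool) (K k : ℕ) :
    ∃ A : ℤ, ∑ t ∈ range k, trmR b K t (r k) = (A : ℝ) / (Q 1 0 K k : ℕ) := by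
  have h1 : (∑ t ∈ range k, trmR b K t (r k)) * ((Q 1 0 K k : ℕ) : ℝ) ∈ Zr := by
    rw [sum_mul]
    refine sum_mem fun t ht => ?_
    rw [Q_cast]
    exact trmR_lt b K (mem_range.1 ht)
  obtain ⟨A, hA⟩ := h1
  refine ⟨A, ?_⟩
  rw [eq_div_iff (Q_pos K k).ne']
  exact hA.symm

/-- **EU-VAL.** -/
theorem _root_.Pool.Agent.Y967.EU.val : S_VAL := by
  intro b hb K k _
  obtain ⟨A, hA⟩ := sum_lt b K k
  by_cases h : ∃ t : ℕ, k ≤ t ∧ b k t = true
  · obtain ⟨t₀, ht, hbt⟩ := h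
    refine ⟨A, trmR b K t₀ (r k), ?_, trmR_ge_abs ht, ?_⟩
    · rw [ser_ofReal]
      congr 1
      rw [tsum_eq_sum (s := insert t₀ (range k)), sum_insert, hA, add_comm]
      · rw [mem_range]
        omega
      · intro t htn
        rw [mem_insert, mem_range, not_or, not_lt] at htn
        refine trmR_ge_zero htn.2 fun hbt' => htn.1 ?_
        exact hb k t t₀ htn.2 ht hbt' hbt
    · exact ⟨fun _ => ⟨t₀, ht, hbt⟩, fun _ => trmR_ge_ne ht hbt⟩
  · refine ⟨A, 0, ?_, ?_, ?_⟩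
    · rw [ser_ofReal]
      congr 1
      rw [tsum_eq_sum (s := range k), hA, add_zero]
      intro t htn
      rw [mem_range, not_lt] at htn
      exact trmR_ge_zero htn fun hbt' => h ⟨t, htn, hbt'⟩
    · rw [abs_zero]
      positivity
    · exact ⟨fun h0 => absurd rfl h0, fun h1 => absurd h1 h⟩

end Pool.Agent.Y967.EU.Val
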