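import Pool.Agent.Y967.EU.Stm

set_option autoImplicit false

open Finset

namespace Pool.Agent.Y967.EU.Comp

open Pool.Agent.Y967.EU

theorem pw : Primrec₂ (fun a b : ℕ => a ^ b) := Primrec₂.unpaired'.1 Nat.Primrec.pow

theorem pwc {α : Type} [Primcodable α] {f g : α → ℕ} (hf : Primrec f) (hg : Primrec g) :
    Primrec fun x => f x ^ g x := pw.comp hf hg

theorem ad {α : Type} [Primcodable α] {f g : α → ℕ} (hf : Primrec f) (hg : Primrec g) :
    Primrec fun x => f x + g x := Primrec.nat_add.comp hf hg

theorem mu {α : Type} [Primcodable α] {f g : α → ℕ} (hf : Primrec f) (hg : Primrec g) :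
    Primrec fun x => f x * g x := Primrec.nat_mul.comp hf hg

theorem sb {α : Type} [Primcodable α] {f g : α → ℕ} (hf : Primrec f) (hg : Primrec g) :
    Primrec fun x => f x - g x := Primrec.nat_sub.comp hf hg

theorem prod_pr : Primrec fun k : ℕ => ∏ j ∈ range k, (1 + 4 ^ j) := by
  have : Primrec (fun n : ℕ => n.rec (motive := fun _ => ℕ) 1 (fun j y => y * (1 + 4 ^ j))) := by
    refine Primrec.nat_rec₁ 1 (f := fun j y => y * (1 + 4 ^ j)) ?_
    exact mu Primrec.snd (ad (Primrec.const 1) (pwc (Primrec.const 4) Primrec.fst))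
  refine this.of_eq fun n => ?_
  induction n with
  | zero => rfl
  | succ n ih => rw [prod_range_succ, ← ih]

theorem f1 : Primrec fun k : ℕ => 1 + 4 ^ k := ad (Primrec.const 1) (pwc (Primrec.const 4) Primrec.id)

theorem f2 : Primrec fun k : ℕ => 2 ^ k := pwc (Primrec.const 2) Primrec.id

theorem f4 : Primrec fun k : ℕ => 4 ^ k := pwc (Primrec.const 4) Primrec.id

theorem Q_pr (D m K : ℕ) : Primrec (Q D m K) := by
  unfold Q
  exact mu (mu (Primrec.const D) (pwc f1 (Primrec.const m)))
    (mu (mu (pwc (Primrec.const 2) (mu (Primrec.const K) f4)) (pwc f1 Primrec.id)) prod_pr)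

theorem prim : S_PRIM := by
  refine ⟨?_, ?_, fun D m K M => ⟨?_, ?_⟩⟩
  · unfold pS
    exact (Primrec.const 1 |>.pair f1).pair ((f2.pair f1).pair ((f2.pair f1).pair (f4.pair f1)))
  · unfold pT
    exact (Primrec.const 1 |>.pair f2).pair (Primrec.const _)
  · unfold VS
    have hq := Q_pr D m K
    have hq2 : Primrec fun k => Q D m K k ^ 2 := pwc hq (Primrec.const 2)
    have hd : Primrec fun k => (Q D m K k ^ 2 + 1) * (1 + 4 ^ k) := mu (ad hq2 (Primrec.const 1)) f1
    refine ((Primrec.const 1 |>.pair f1).pair ((f2.pair f1).pair ((Primrec.pair ?_ hd).pair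
      (Primrec.pair ?_ hd)))).pair (Primrec.pair (Primrec.const 1) ?_)
    · exact sb (mu (sb hq2 (Primrec.const 1)) f2) (mu (mu (Primrec.const 2) hq) f4)
    · exact ad (mu (sb hq2 (Primrec.const 1)) f4) (mu (mu (Primrec.const 2) hq) f2)
    · exact mu (mu (Primrec.const _) hq) f2
  · unfold VT
    have hq := Q_pr D m K
    have hd : Primrec fun k => 8 * Q D m K k * (M + 1) := mu (mu (Primrec.const 8) hq) (Primrec.const _)
    have h4 : Primrec fun k => 4 * Q D m K k := mu (Primrec.const 4) hq
    exact ((Primrec.const _).pair ((Primrec.pair (sb hd (Primrec.const 1)) hd).pair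
      ((Primrec.const 1).pair h4))).pair ((Primrec.const _).pair
        ((Primrec.pair (ad hd (Primrec.const 1)) hd).pair ((Primrec.const 3).pair h4)))

/-- has `h k` been true by the time `t`? -/
def upto (h : ℕ → ℕ → Bool) (k t : ℕ) : Bool :=
  Nat.rec (h k 0) (fun s y => y || h k (s + 1)) t

theorem upto_iff (h : ℕ → ℕ → Bool) (k t : ℕ) : upto h k t = true ↔ ∃ s ≤ t, h k s = true := by
  induction t with
  | zero =>
    unfold upto
    constructor
    · intro h1; exact ⟨0, le_rfl, h1⟩
    · rintro ⟨s, h1, h2⟩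
      have : s = 0 := by omega
      subst this; exact h2
  | succ t ih =>
    have e : upto h k (t + 1) = (upto h k t || h k (t + 1)) := rfl
    rw [e, Bool.or_eq_true, ih]
    constructor
    · rintro (⟨s, h1, h2⟩ | h1)
      · exact ⟨s, by omega, h2⟩
      · exact ⟨t + 1, le_rfl, h1⟩
    · rintro ⟨s, h1, h2⟩
      rcases Nat.lt_or_ge t s with h3 | h3
      · right
        have : s = t + 1 := by omega
        subst this; exact h2
      · left; exact ⟨s, h3, h2⟩

theorem upto_comp (h : ℕ → ℕ → Bool) (hh : Computable₂ h) : Computable₂ (upto h) := by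
  refine Computable.nat_rec (f := fun p : ℕ × ℕ => p.2) (g := fun p => h p.1 0)
    (h := fun p q => q.2 || h p.1 (q.1 + 1)) Computable.snd
    (hh.comp Computable.fst (Computable.const 0)) ?_
  have e1 : Computable (fun x : (ℕ × ℕ) × ℕ × Bool => h x.1.1 (x.2.1 + 1)) :=
    hh.comp (Computable.fst.comp Computable.fst)
      (Computable.succ.comp (Computable.fst.comp Computable.snd))
  have e2 : Computable (fun x : (ℕ × ℕ) × ℕ × Bool => x.2.2) := Computable.snd.comp Computable.snd
  exact (Primrec.or.to_comp.comp e2 e1)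

/-- the first time `t ≥ k` at which `h k` has been true -/
def fst (h : ℕ → ℕ → Bool) (k t : ℕ) : Bool :=
  upto h k t && (decide (t ≤ k) || ! upto h k (t - 1))

theorem fst_comp (h : ℕ → ℕ → Bool) (hh : Computable₂ h) : Computable₂ (fst h) := by
  have h1 : Computable fun p : ℕ × ℕ => upto h p.1 p.2 := upto_comp h hh
  have h2 : Computable fun p : ℕ × ℕ => upto h p.1 (p.2 - 1) :=
    (upto_comp h hh).comp Computable.fst (Primrec.nat_sub.comp Primrec.snd (Primrec.const 1)).to_comp
  have h3 : Computable fun p : ℕ × ℕ => decide (p.2 ≤ p.1) :=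
    (Primrec.nat_le.comp Primrec.snd Primrec.fst).decide.to_comp
  exact Primrec.and.to_comp.comp h1 (Primrec.or.to_comp.comp h3 (Primrec.not.to_comp.comp h2))

theorem hal : S_HAL := by
  intro h hh
  refine ⟨fst h, fst_comp h hh, ?_, fun k => ?_⟩
  · have key : ∀ k t t' : ℕ, k ≤ t → t < t' → fst h k t = true → fst h k t' = true → False := by
      intro k t t' h1 h2 h3 h4
      unfold fst at h3 h4
      simp only [Bool.and_eq_true, Bool.or_eq_true, decide_eq_true_eq, Bool.not_eq_true'] at h3 h4
      obtain ⟨s, hs, hs'⟩ := (upto_iff h k t).1 h3.1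
      rcases h4.2 with h5 | h5
      · omega
      · have : upto h k (t' - 1) = true := (upto_iff h k (t' - 1)).2 ⟨s, by omega, hs'⟩
        rw [this] at h5
        exact Bool.noConfusion h5
    intro k t t' h1 h2 h3 h4
    rcases lt_trichotomy t t' with h5 | h5 | h5
    · exact (key k t t' h1 h5 h3 h4).elim
    · exact h5
    · exact (key k t' t h2 h5 h4 h3).elim
  · constructor
    · rintro ⟨t, -, h2⟩
      unfold fst at h2
      rw [Bool.and_eq_true] at h2
      obtain ⟨s, -, hs⟩ := (upto_iff h k t).1 h2.1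
      exact ⟨s, hs⟩
    · rintro ⟨s, hs⟩
      classical
      have hex : ∃ t, k ≤ t ∧ upto h k t = true :=
        ⟨max k s, le_max_left _ _, (upto_iff _ _ _).2 ⟨s, le_max_right _ _, hs⟩⟩
      refine ⟨Nat.find hex, (Nat.find_spec hex).1, ?_⟩
      unfold fst
      rw [Bool.and_eq_true, Bool.or_eq_true, decide_eq_true_eq, Bool.not_eq_true']
      refine ⟨(Nat.find_spec hex).2, ?_⟩
      by_cases h1 : Nat.find hex ≤ k
      · left; exact h1
      · right
        have h2 := Nat.find_min hex (m := Nat.find hex - 1) (by omega)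
        have h3 : k ≤ Nat.find hex - 1 := by omega
        by_contra h4
        exact h2 ⟨h3, by simpa using h4⟩

end Pool.Agent.Y967.EU.Comp
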