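import Pool.Agent.Y967.EU.Comp
import Pool.Agent.H870R3.TMUniv

set_option autoImplicit false

open Finset Polynomial

namespace Pool.Agent.Y967.EU.Main

open Pool.Agent.Y967.EU Pool.Agent.H870R3

/-- has `U` reached the halting state at time `t` when started in the configuration number `k`? -/
def hal (U : TM) (k t : ℕ) : Bool :=
  ((Encodable.decode (α := List (Fin (U.k + 1)) × List (Fin (U.k + 1))) k).map
    (fun c => hb (U.code, (0, c.1.map Fin.val, c.2.map Fin.val)) t)).getD false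

theorem primrec_val (n : ℕ) : Primrec (fun l : List (Fin n) => l.map Fin.val) :=
  Primrec.list_map Primrec.id (Primrec.fin_val.comp Primrec.snd)

theorem hal_computable (U : TM) : Computable₂ (hal U) := by
  refine Primrec.to_comp ?_
  unfold hal
  refine Primrec.option_getD.comp (Primrec.option_map (Primrec.decode.comp Primrec.fst) ?_)
    (Primrec.const false)
  refine primrec_hb.comp (Primrec.pair (Primrec.const _) (Primrec.pair (Primrec.const 0)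
    (Primrec.pair ?_ ?_))) (Primrec.snd.comp Primrec.fst)
  · exact (primrec_val _).comp (Primrec.fst.comp Primrec.snd)
  · exact (primrec_val _).comp (Primrec.snd.comp Primrec.snd)

theorem hal_encode (U : TM) (c : List (Fin (U.k + 1)) × List (Fin (U.k + 1))) (t : ℕ) :
    hal U (Encodable.encode c) t = hb (U.code, (0, c.1.map Fin.val, c.2.map Fin.val)) t := by
  simp [hal]

theorem hal_iff (U : TM) (c : List (Fin (U.k + 1)) × List (Fin (U.k + 1))) :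
    U.Halts (U.init c) ↔ ∃ t, hal U (Encodable.encode c) t = true := by
  unfold TM.init
  rw [halts_iff]
  refine exists_congr fun t => ?_
  rw [hal_encode]
  simp [hb]

/-- the orbit of `x` meets `V` -/
def Meets (X : E4 → E4) (x : E4) (V : Set E4) : Prop :=
  ∃ γ : ℝ → E4, γ 0 = x ∧ (∀ t, HasDerivAt γ (X (γ t)) t) ∧ ∃ t : ℝ, 0 ≤ t ∧ γ t ∈ V

theorem meets_iff (h : S_FLOW) (F : ℝ → ℝ) (x : E4) (V : Set E4) :
    Meets (fieldS F) x V ↔ ∃ t : ℝ, 0 ≤ t ∧ rot t (F (x 0 ^ 2 + x 1 ^ 2) * t) x ∈ V := by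
  obtain ⟨h1, h2⟩ := h F
  constructor
  · rintro ⟨γ, hγ0, hγ, t, ht, htV⟩
    refine ⟨t, ht, ?_⟩
    rw [h1 γ hγ t, hγ0] at htV
    exact htV
  · rintro ⟨t, ht, htV⟩
    obtain ⟨h3, h4⟩ := h2 x
    refine ⟨fun t => rot t (F (x 0 ^ 2 + x 1 ^ 2) * t) x, ?_, h4, t, ht, htV⟩
    simp only [mul_zero]
    exact h3

theorem r_pos (k : ℕ) : 0 < r k := by unfold r; positivity

theorem r_le (k : ℕ) : r k ≤ 1 := by
  unfold r
  rw [div_le_one (by positivity)]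
  have : (0 : ℝ) < 4 ^ k := by positivity
  linarith

theorem pS_rho (k : ℕ) : (pt4 (pS k)) 0 ^ 2 + (pt4 (pS k)) 1 ^ 2 = r k := by
  have e0 : (pt4 (pS k)) 0 = 1 / (1 + 4 ^ k) := by simp [pt4, pS, rat]
  have e1 : (pt4 (pS k)) 1 = 2 ^ k / (1 + 4 ^ k) := by simp [pt4, pS, rat]
  rw [e0, e1]
  unfold r
  have h4 : (4 : ℝ) ^ k = 2 ^ k * 2 ^ k := by rw [← mul_pow]; norm_num
  have h5 : (0 : ℝ) < 1 + 4 ^ k := by positivity
  rw [div_pow, div_pow, ← add_div, div_eq_div_iff (by positivity) h5.ne', h4]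
  ring

theorem pS_norm (k : ℕ) : ‖pt4 (pS k)‖ = 1 := by
  have e0 : (pt4 (pS k)) 0 = 1 / (1 + 4 ^ k) := by simp [pt4, pS, rat]
  have e1 : (pt4 (pS k)) 1 = 2 ^ k / (1 + 4 ^ k) := by simp [pt4, pS, rat]
  have e2 : (pt4 (pS k)) 2 = 2 ^ k / (1 + 4 ^ k) := by simp [pt4, pS, rat]
  have e3 : (pt4 (pS k)) 3 = 4 ^ k / (1 + 4 ^ k) := by simp [pt4, pS, rat]
  rw [EuclideanSpace.norm_eq, Fin.sum_univ_four, e0, e1, e2, e3, Real.sqrt_eq_one]
  have h4 : (4 : ℝ) ^ k = 2 ^ k * 2 ^ k := by rw [← mul_pow]; norm_num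
  have h5 : (0 : ℝ) < 1 + 4 ^ k := by positivity
  simp only [Real.norm_eq_abs, sq_abs]
  rw [div_pow, div_pow, div_pow, ← add_div, ← add_div, ← add_div, div_eq_one_iff_eq (by positivity), h4]
  ring

theorem pT_sin (k : ℕ) : Real.sin (Real.pi * (ptT (pT k)) 0) ^ 2 = r k := by
  have e0 : (ptT (pT k)) 0 = Real.arctan (1 / 2 ^ k) / Real.pi := by simp [ptT, pT, rat]
  have hpi := Real.pi_pos.ne'
  rw [e0, mul_div_cancel₀ _ hpi, Real.sin_arctan, div_pow, Real.sq_sqrt (by positivity)]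
  unfold r
  have h4 : (4 : ℝ) ^ k = 2 ^ k * 2 ^ k := by rw [← mul_pow]; norm_num
  rw [h4]
  have : (0 : ℝ) < 2 ^ k := by positivity
  field_simp
  ring

/-- the numbers of the construction -/
theorem vals (h_ana : S_ANA) (h_val : S_VAL) (h_rat : S_RAT) (h_ineq : S_INEQ) (P : ℚ[X]) :
    ∃ D m M K₀ : ℕ, 2 ≤ K₀ ∧ ∀ K : ℕ, K₀ ≤ K → ∀ b : ℕ → ℕ → Bool, Once b → ∀ k : ℕ,
      ∃ (A : ℤ) (δ : ℝ), (aeval (r k : ℂ) P + ser b K (r k)).re = (A : ℝ) / (Q D m K k : ℕ) + δ ∧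
        2 ^ (k + 2) ≤ Q D m K k ∧ |(A : ℝ) / (Q D m K k : ℕ) + δ| ≤ M ∧
        64 * (M + 2) * 2 ^ k * ((Q D m K k : ℕ) : ℝ) ^ 2 * |δ| < 1 ∧
        (δ ≠ 0 ↔ ∃ t : ℕ, k ≤ t ∧ b k t = true) := by
  obtain ⟨D, m, hD, hDm⟩ := h_rat P
  obtain ⟨C, hC⟩ := (isCompact_Icc (a := (0 : ℝ)) (b := 1)).exists_bound_of_continuousOn
    (f := fun x : ℝ => aeval x P) (Polynomial.continuous_aeval P).continuousOn
  obtain ⟨M, hM⟩ := exists_nat_ge (C + 1)
  obtain ⟨K₀, hK₀⟩ := h_ineq D m M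
  refine ⟨D, m, M, max K₀ 2, le_max_right _ _, fun K hK b hb k => ?_⟩
  have hK1 : K₀ ≤ K := (le_max_left _ _).trans hK
  have hK2 : 2 ≤ K := (le_max_right _ _).trans hK
  obtain ⟨A1, δ, h1, h2, h3⟩ := h_val b hb K k (by omega)
  obtain ⟨A2, h4⟩ := hDm k
  have hq1 : 0 < Q 1 0 K k := by unfold Q; positivity
  have hqe : Q D m K k = D * (1 + 4 ^ k) ^ m * Q 1 0 K k := by
    unfold Q; ring
  have hqD : 0 < D * (1 + 4 ^ k) ^ m := by positivity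
  have hq : 0 < Q D m K k := by rw [hqe]; positivity
  have haev : aeval (r k : ℂ) P = ((aeval (r k) P : ℝ) : ℂ) := by
    rw [Complex.coe_algebraMap.symm, Polynomial.aeval_algebraMap_apply]
  have hval : (aeval (r k : ℂ) P + ser b K (r k)).re =
      (((A2 * Q 1 0 K k + A1 * (D * (1 + 4 ^ k) ^ m : ℕ) : ℤ)) : ℝ) / (Q D m K k : ℕ) + δ := by
    rw [haev, h1, ← Complex.ofReal_add, Complex.ofReal_re, h4, hqe]
    have a1 : ((Q 1 0 K k : ℕ) : ℝ) ≠ 0 := by exact_mod_cast hq1.ne'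
    have a2 : ((D * (1 + 4 ^ k) ^ m : ℕ) : ℝ) ≠ 0 := by exact_mod_cast hqD.ne'
    push_cast at a2 ⊢
    field_simp
    ring
  refine ⟨_, δ, hval, ?_, ?_, ?_, h3⟩
  · have h5 : 2 ^ (k + 2) ≤ 2 ^ (K * 4 ^ k) := by
      apply Nat.pow_le_pow_right (by norm_num)
      have h6 : k < 4 ^ k := Nat.lt_pow_self (by norm_num)
      have h7 : 2 * 4 ^ k ≤ K * 4 ^ k := Nat.mul_le_mul_right _ hK2
      omega
    refine h5.trans ?_
    unfold Q
    have h8 : 1 ≤ D * (1 + 4 ^ k) ^ m := hqD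
    have h9 : 1 ≤ (1 + 4 ^ k) ^ k * ∏ j ∈ range k, (1 + 4 ^ j) :=
      Nat.succ_le_of_lt (by positivity)
    calc 2 ^ (K * 4 ^ k) = 1 * (2 ^ (K * 4 ^ k) * 1) := by ring
      _ ≤ D * (1 + 4 ^ k) ^ m * (2 ^ (K * 4 ^ k) * ((1 + 4 ^ k) ^ k * ∏ j ∈ range k, (1 + 4 ^ j))) := by
          gcongr
      _ = _ := by ring
  · rw [← hval, haev, Complex.add_re, Complex.ofReal_re]
    have h5 := hC (r k) ⟨(r_pos k).le, r_le k⟩
    rw [Real.norm_eq_abs] at h5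
    have h6 := ((h_ana.1 b K (by omega)).2.2) (r k) (r_pos k).le (r_le k)
    exact (abs_add_le _ _).trans ((add_le_add h5 h6).trans hM)
  · have h5 := hK₀ K hK1 k
    have h6 : (64 * ((M : ℝ) + 2) * 2 ^ k * ((Q D m K k : ℕ) : ℝ) ^ 2) < 2 ^ (K * 4 ^ (k + 1)) := by
      exact_mod_cast h5
    have h7 : (0 : ℝ) < (1 / 2) ^ (K * 4 ^ (k + 1)) := by positivity
    calc 64 * ((M : ℝ) + 2) * 2 ^ k * ((Q D m K k : ℕ) : ℝ) ^ 2 * |δ|
        ≤ 64 * ((M : ℝ) + 2) * 2 ^ k * ((Q D m K k : ℕ) : ℝ) ^ 2 * (1 / 2) ^ (K * 4 ^ (k + 1)) := by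
          gcongr
      _ < 2 ^ (K * 4 ^ (k + 1)) * (1 / 2) ^ (K * 4 ^ (k + 1)) := by
          apply mul_lt_mul_of_pos_right h6 h7
      _ = 1 := by rw [← mul_pow]; norm_num

end Pool.Agent.Y967.EU.Main
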