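import Mathlib
import Pool.Agent.H870R3.Shear

set_option autoImplicit false

/-!
Project EU: real-analytic Turing complete stationary Euler flows on the round `𝕊³` and the flat `𝕋³`.
Definitions and the statements `S_...` of the jobs.
-/

open Finset Polynomial

namespace Pool.Agent.Y967.EU

open Pool.Agent.H870R3

/-! ### Rational data -/

/-- The rational number with numerator `a.1` and denominator `a.2`. -/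
noncomputable def rat (a : ℕ × ℕ) : ℝ := (a.1 : ℝ) / (a.2 : ℝ)

/-- Triples of rational numbers. -/
abbrev Rat3 : Type := (ℕ × ℕ) × (ℕ × ℕ) × (ℕ × ℕ)

/-- Quadruples of rational numbers. -/
abbrev Rat4 : Type := (ℕ × ℕ) × (ℕ × ℕ) × (ℕ × ℕ) × (ℕ × ℕ)

/-- Euclidean space `ℝ⁴`. -/
abbrev E4 : Type := EuclideanSpace ℝ (Fin 4)

/-- The point of `ℝ⁴` with the rational coordinates `c`. -/
noncomputable def pt4 (c : Rat4) : E4 := !₂[rat c.1, rat c.2.1, rat c.2.2.1, rat c.2.2.2]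

/-- The point of `𝕋³` with the coordinates `c` in the chart `(tan (π x₀), x₁, x₂)`. -/
noncomputable def ptT (c : Rat3) : E3 := !₂[Real.arctan (rat c.1) / Real.pi, rat c.2.1, rat c.2.2]

/-- The open box with the rational corners `c` and `d`. -/
def box (c d : Rat3) : Set E3 :=
  {y | (rat c.1 < y 0 ∧ y 0 < rat d.1) ∧ (rat c.2.1 < y 1 ∧ y 1 < rat d.2.1) ∧
    (rat c.2.2 < y 2 ∧ y 2 < rat d.2.2)}

/-! ### The round sphere -/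

/-- The tangential part of the vector `v` at the point `x` of the unit sphere. -/
noncomputable def tang (x v : E4) : E4 := v - inner ℝ x v • x

/-- The coordinate unit vectors. -/
noncomputable def e4 (i : Fin 4) : E4 := EuclideanSpace.single i 1

/-- `X` (restricted to the unit sphere) is a stationary Euler flow on the round sphere `𝕊³`. -/
structure IsSteadyEulerS3 (X : E4 → E4) : Prop where
  smooth : ContDiff ℝ (⊤ : ℕ∞) X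
  tangent : ∀ x : E4, ‖x‖ = 1 → inner ℝ x (X x) = 0
  div_free : ∀ x : E4, ‖x‖ = 1 → ∑ i, (fderiv ℝ X x (e4 i)) i - inner ℝ x (fderiv ℝ X x x) = 0
  euler : ∃ p : E4 → ℝ, ContDiff ℝ (⊤ : ℕ∞) p ∧
    ∀ x : E4, ‖x‖ = 1 → tang x (fderiv ℝ X x (X x)) = - tang x (gradient p x)

/-- The vector field `(-x₁, x₀, -F(ρ) x₃, F(ρ) x₂)`, `ρ = x₀² + x₁²`. -/
noncomputable def fieldS (F : ℝ → ℝ) (x : E4) : E4 :=
  !₂[-x 1, x 0, -(F (x 0 ^ 2 + x 1 ^ 2) * x 3), F (x 0 ^ 2 + x 1 ^ 2) * x 2]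

/-- The product of two rotations. -/
noncomputable def rot (a c : ℝ) (x : E4) : E4 :=
  !₂[x 0 * Real.cos a - x 1 * Real.sin a, x 0 * Real.sin a + x 1 * Real.cos a,
    x 2 * Real.cos c - x 3 * Real.sin c, x 2 * Real.sin c + x 3 * Real.cos c]

/-! ### The profile -/

/-- `ρ_k = 1 / (1 + 4^k)` -/
noncomputable def r (k : ℕ) : ℝ := 1 / (1 + 4 ^ k)

/-- the denominators -/
def Q (D m K k : ℕ) : ℕ :=
  D * (1 + 4 ^ k) ^ m * (2 ^ (K * 4 ^ k) * (1 + 4 ^ k) ^ k * ∏ j ∈ range k, (1 + 4 ^ j))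

/-- the terms of the series -/
noncomputable def trm (b : ℕ → ℕ → Bool) (K t : ℕ) (z : ℂ) : ℂ :=
  (1 / 2) ^ (K * 4 ^ (t + 1)) * ∑ n ∈ range (t + 1),
    if b n t = true then ∏ j ∈ (range (t + 1)).erase n, (z - (r j : ℂ)) else 0

/-- the series -/
noncomputable def ser (b : ℕ → ℕ → Bool) (K : ℕ) (z : ℂ) : ℂ := ∑' t : ℕ, trm b K t z

/-- at most one `t ≥ k` with `b k t` -/
def Once (b : ℕ → ℕ → Bool) : Prop :=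
  ∀ k t t' : ℕ, k ≤ t → k ≤ t' → b k t = true → b k t' = true → t = t'

/-- the initial point on the sphere -/
def pS (k : ℕ) : Rat4 := ((1, 1 + 4 ^ k), (2 ^ k, 1 + 4 ^ k), (2 ^ k, 1 + 4 ^ k), (4 ^ k, 1 + 4 ^ k))

/-- the target ball on the sphere: center and radius -/
def VS (M q k : ℕ) : Rat4 × (ℕ × ℕ) :=
  (((1, 1 + 4 ^ k), (2 ^ k, 1 + 4 ^ k),
    ((q ^ 2 - 1) * 2 ^ k - 2 * q * 4 ^ k, (q ^ 2 + 1) * (1 + 4 ^ k)),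
    ((q ^ 2 - 1) * 4 ^ k + 2 * q * 2 ^ k, (q ^ 2 + 1) * (1 + 4 ^ k))), (1, 8 * (M + 2) * q * 2 ^ k))

/-- the initial point on the torus -/
def pT (k : ℕ) : Rat3 := ((1, 2 ^ k), (0, 1), (0, 1))

/-- the target box on the torus -/
def VT (M q : ℕ) : Rat3 × Rat3 :=
  (((0, 1), (8 * q * (M + 1) - 1, 8 * q * (M + 1)), (1, 4 * q)),
    ((1, 1), (8 * q * (M + 1) + 1, 8 * q * (M + 1)), (3, 4 * q)))

/-! ### The statements of the jobs -/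

/-- EU-ANA -/
def S_ANA : Prop :=
  (∀ (b : ℕ → ℕ → Bool) (K : ℕ), 1 ≤ K → Differentiable ℂ (ser b K) ∧
    (∀ x : ℝ, (ser b K x).im = 0) ∧ ∀ x : ℝ, 0 ≤ x → x ≤ 1 → |(ser b K x).re| ≤ 1) ∧
  ∀ R ε : ℝ, 0 < ε → ∃ K₁ : ℕ, ∀ K : ℕ, K₁ ≤ K → ∀ (b : ℕ → ℕ → Bool) (z : ℂ), ‖z‖ ≤ R →
    ‖ser b K z‖ ≤ ε

/-- EU-VAL -/
def S_VAL : Prop :=
  ∀ b : ℕ → ℕ → Bool, Once b → ∀ K k : ℕ, 1 ≤ K → ∃ (A : ℤ) (δ : ℝ),
    ser b K (r k) = (((A : ℝ) / (Q 1 0 K k : ℕ) + δ : ℝ) : ℂ) ∧ |δ| ≤ (1 / 2) ^ (K * 4 ^ (k + 1)) ∧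
      (δ ≠ 0 ↔ ∃ t : ℕ, k ≤ t ∧ b k t = true)

/-- EU-RAT -/
def S_RAT : Prop :=
  ∀ P : ℚ[X], ∃ D m : ℕ, 1 ≤ D ∧ ∀ k : ℕ, ∃ A : ℤ,
    aeval (r k) P = (A : ℝ) / ((D * (1 + 4 ^ k) ^ m : ℕ) : ℝ)

/-- EU-INEQ -/
def S_INEQ : Prop :=
  ∀ D m M : ℕ, ∃ K₀ : ℕ, ∀ K : ℕ, K₀ ≤ K → ∀ k : ℕ,
    64 * (M + 2) * 2 ^ k * (Q D m K k) ^ 2 < 2 ^ (K * 4 ^ (k + 1))

/-- EU-PRIM -/
def S_PRIM : Prop :=
  Primrec pS ∧ Primrec pT ∧ ∀ D m K M : ℕ,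
    Primrec (fun k => VS M (Q D m K k) k) ∧ Primrec (fun k => VT M (Q D m K k))

/-- EU-HAL -/
def S_HAL : Prop :=
  ∀ h : ℕ → ℕ → Bool, Computable₂ h → ∃ b : ℕ → ℕ → Bool, Computable₂ b ∧ Once b ∧
    ∀ k : ℕ, (∃ t : ℕ, k ≤ t ∧ b k t = true) ↔ ∃ t : ℕ, h k t = true

/-- EU-EULS -/
def S_EULS : Prop := ∀ F : ℝ → ℝ, ContDiff ℝ (⊤ : ℕ∞) F → IsSteadyEulerS3 (fieldS F)

/-- EU-FLOW (no regularity of `F` is needed) -/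
def S_FLOW : Prop :=
  ∀ F : ℝ → ℝ, (∀ γ : ℝ → E4, (∀ t, HasDerivAt γ (fieldS F (γ t)) t) →
      ∀ t, γ t = rot t (F ((γ 0) 0 ^ 2 + (γ 0) 1 ^ 2) * t) (γ 0)) ∧
    ∀ x : E4, (rot 0 0 x = x) ∧ ∀ t : ℝ, HasDerivAt (fun t => rot t (F (x 0 ^ 2 + x 1 ^ 2) * t) x)
      (fieldS F (rot t (F (x 0 ^ 2 + x 1 ^ 2) * t) x)) t

/-- EU-ARC: the rational point `((q² - 1)/(q² + 1), 2q/(q² + 1))` of the circle -/
def S_ARC : Prop :=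
  ∀ q : ℕ, 1 ≤ q → ∃ θ : ℝ, Real.pi / 2 ≤ q * θ ∧ q * θ ≤ 2 ∧
    Real.cos θ = ((q : ℝ) ^ 2 - 1) / ((q : ℝ) ^ 2 + 1) ∧ Real.sin θ = 2 * q / ((q : ℝ) ^ 2 + 1)

/-- EU-STEP -/
def S_STEP : Prop :=
  ∀ a L θ : ℝ, θ ≠ 0 → |θ| < L → ∃ (j : ℕ) (m : ℤ), a < j * θ + m ∧ j * θ + m < a + L

/-- EU-KEYS -/
def S_KEYS : Prop :=
  ∀ (k q M : ℕ) (A : ℤ) (δ : ℝ), 2 ^ (k + 2) ≤ q → |(A : ℝ) / q + δ| ≤ M →
    64 * (M + 2) * 2 ^ k * (q : ℝ) ^ 2 * |δ| < 1 →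
    ((∃ t : ℝ, 0 ≤ t ∧ rot t (((A : ℝ) / q + δ) * t) (pt4 (pS k)) ∈
      Metric.ball (pt4 (VS M q k).1) (rat (VS M q k).2)) ↔ δ ≠ 0)

/-- EU-KEYT -/
def S_KEYT : Prop :=
  ∀ (k q M : ℕ) (A : ℤ) (δ : ℝ) (F : ℝ → ℝ), 1 ≤ q → |(A : ℝ) / q + δ| ≤ M →
    64 * (M + 2) * 2 ^ k * (q : ℝ) ^ 2 * |δ| < 1 → F ((ptT (pT k)) 0) = (A : ℝ) / q + δ →
    (OrbitMeets (shearF F) (ptT (pT k)) (box (VT M q).1 (VT M q).2) ↔ δ ≠ 0)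

/-- EU-ANF -/
def S_ANF : Prop :=
  ∀ G : ℂ → ℂ, Differentiable ℂ G →
    AnalyticOnNhd ℝ (fun x : ℝ => (G x).re) Set.univ ∧
    AnalyticOnNhd ℝ (fieldS fun x : ℝ => (G x).re) Set.univ ∧
    AnalyticOnNhd ℝ (shearF fun s : ℝ => (G ((Real.sin (Real.pi * s) ^ 2 : ℝ))).re) Set.univ

/-- EU-DENS -/
def S_DENS : Prop :=
  ∀ G : ℂ → ℂ, Differentiable ℂ G → (∀ x : ℝ, (G x).im = 0) → ∀ R ε : ℝ, 0 < ε →
    ∃ P : ℚ[X], ∀ z : ℂ, ‖z‖ ≤ R → ‖aeval z P - G z‖ ≤ ε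

end Pool.Agent.Y967.EU
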